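import Pool.Agent.N990.C.Ener

/-!
# The upper bound
-/

set_option autoImplicit false
set_option linter.unusedSectionVars false

open MeasureTheory Set Filter Topology
open scoped Classical

namespace Pool.Agent.N990.C

open Pool.Agent.N990

noncomputable section

variable {D L : ℕ}

lemma Bs.prod3 {F k : Pt D → ℝ} (hF : Bs F) (hk : Bs k) {G : Pt D × Pt D → ℝ}
    (hG : Measurable G) (hGb : ∃ M : ℝ, ∀ q, |G q| ≤ M) :
    Bs fun q : Pt D × Pt D => F q.1 * (k q.2 * G q) := by
  obtain ⟨M, hM0, hM⟩ := hk.bdd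
  obtain ⟨R, hR0, hR⟩ := hk.supp
  obtain ⟨M', hM0', hM'⟩ := hF.bdd
  obtain ⟨R', hR0', hR'⟩ := hF.supp
  obtain ⟨M'', hM''⟩ := hGb
  refine ⟨?_, ⟨M' * (M * |M''|), by positivity, fun q => ?_⟩, max R R', le_max_of_le_left hR0,
    fun q hq => ?_⟩
  · exact (hF.meas.comp measurable_fst).mul ((hk.meas.comp measurable_snd).mul hG)
  · rw [abs_mul, abs_mul]
    refine mul_le_mul (hM' _) ?_ (by positivity) hM0'
    exact mul_le_mul (hM _) ((hM'' _).trans (le_abs_self _)) (abs_nonneg _) hM0
  · have h1 : F q.1 ≠ 0 := by intro h; exact hq (by rw [h, zero_mul])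
    have h2 : k q.2 ≠ 0 := by intro h; exact hq (by rw [h, zero_mul, mul_zero])
    rw [Prod.norm_def]
    exact max_le ((hR' _ h1).trans (le_max_right _ _)) ((hR _ h2).trans (le_max_left _ _))

/-- the mollifier is moved to the source -/
lemma conv_swap {F k g : Pt D → ℝ} (hF : Bs F) (hk : Bs k) (hg : Bs g) :
    ∫ p, F p * ∫ t, k t * g (p - t) = ∫ p, g p * ∫ t, k t * F (p + t) := by
  obtain ⟨M, hM0, hM⟩ := hg.bdd
  obtain ⟨M', hM0', hM'⟩ := hF.bdd
  have h1 : Bs fun q : Pt D × Pt D => F q.1 * (k q.2 * g (q.1 - q.2)) :=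
    hF.prod3 hk (G := fun q => g (q.1 - q.2))
      (hg.meas.comp (measurable_fst.sub measurable_snd)) ⟨M, fun q => hM _⟩
  have h2 : Bs fun q : Pt D × Pt D => k q.1 * (g q.2 * F (q.2 + q.1)) :=
    hk.prod3 hg (G := fun q => F (q.2 + q.1))
      (hF.meas.comp (measurable_snd.add measurable_fst)) ⟨M', fun q => hM' _⟩
  have i1 := h1.integrable (μ := (volume : Measure (Pt D)).prod volume)
  have i2 := h2.integrable (μ := (volume : Measure (Pt D)).prod volume)
  calc ∫ p, F p * ∫ t, k t * g (p - t) = ∫ p, ∫ t, F p * (k t * g (p - t)) := by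
        simp only [integral_const_mul]
    _ = ∫ t, ∫ p, F p * (k t * g (p - t)) := integral_integral_swap i1
    _ = ∫ t, ∫ p, k t * (g p * F (p + t)) := by
        congr 1
        funext t
        rw [← integral_add_right_eq_self (μ := (volume : Measure (Pt D)))
          (fun p => F p * (k t * g (p - t))) t]
        congr 1
        funext p
        rw [add_sub_cancel_right]; ring
    _ = ∫ p, ∫ t, k t * (g p * F (p + t)) := integral_integral_swap i2
    _ = _ := by
        congr 1
        funext p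
        rw [← integral_const_mul]
        congr 1
        funext t
        ring

/-- the volume of a thin layer -/
lemma layer_vol (R a b : ℝ) (hab : a ≤ b) :
    volume.real ((Metric.closedBall (0 : Fin D → ℝ) R) ×ˢ (Ioc a b) : Set (Pt D)) =
      volume.real (Metric.closedBall (0 : Fin D → ℝ) R) * (b - a) := by
  rw [measureReal_def, measureReal_def, Measure.volume_eq_prod, Measure.prod_prod,
    ENNReal.toReal_mul, Real.volume_Ioc, ENNReal.toReal_ofReal (by linarith)]

/-- **the source term** -/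
theorem src_err {f : Pt D → Fin D → ℝ} (hf : Continuous f) (hfs : HasCompactSupport f) :
    ∃ W : ℝ, 0 ≤ W ∧ ∀ (L : ℕ), 1 ≤ L → ∀ (A : Finset (Site D)) (v : Site D → Lab D L → ℝ),
      Sup A v → ∀ (k : Pt D → ℝ) (δ : ℝ), 0 < δ → δ ≤ 1 → IsKer k δ → ∀ (ω η : ℝ), 0 ≤ ω → 0 < η →
      (∀ a b i, ‖a - b‖ ≤ 1 / (L : ℝ) + 3 * δ → |f a i - f b i| ≤ ω) →
      JL f v - JC f (mol k fun i p => ext v i (flo L p)) ≤
        η * NL v + (1 / η) * (W * (ω ^ 2 + 3 * δ + 1 / (L : ℝ))) := by
  obtain ⟨M, R, hM0, hR0, hM, hz⟩ := src_bd hf hfs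
  obtain ⟨V, hV⟩ : ∃ V, V = volume.real (Metric.closedBall (0 : Pt D) (R + 4)) := ⟨_, rfl⟩
  obtain ⟨V', hV'⟩ : ∃ V', V' = volume.real (Metric.closedBall (0 : Fin D → ℝ) (R + 4)) := ⟨_, rfl⟩
  have hV0 : 0 ≤ V := hV ▸ measureReal_nonneg
  have hV0' : 0 ≤ V' := hV' ▸ measureReal_nonneg
  refine ⟨D * (2 * V + 8 * M ^ 2 * V'), by positivity,
    fun L hL A v hv k δ hδ hδ1 hk ω η hω hη hc => ?_⟩
  have h0 : (0 : ℝ) < L := by exact_mod_cast hL
  have hL1 : (1 : ℝ) ≤ L := by exact_mod_cast hL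
  have hLi : 1 / (L : ℝ) ≤ 1 := by rw [div_le_one h0]; exact hL1
  have hLi0 : 0 < 1 / (L : ℝ) := by positivity
  have hg := Bs_ext hL hv
  have hkb := hk.bs hδ
  obtain ⟨F, hFd⟩ : ∃ F : Fin D → Pt D → ℝ, F = fun i => (Slb D).indicator fun p => f p i := ⟨_, rfl⟩
  have hfm : ∀ i, Measurable fun p => f p i := fun i =>
    ((continuous_apply i).comp hf).measurable
  have hF : ∀ i, Bs (F i) := by
    intro i
    rw [hFd]
    refine ⟨(hfm i).indicator Slb_meas, ⟨M, hM0, fun p => ?_⟩, R, hR0, fun p hp => ?_⟩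
    · simp only
      rw [indicator_apply]
      split_ifs
      · exact hM p i
      · rw [abs_zero]; exact hM0
    · by_contra hp'
      rw [not_le] at hp'
      apply hp
      simp only
      rw [indicator_apply, hz p hp']
      simp
  have hFb : ∀ i p, |F i p| ≤ M := by
    intro i p
    rw [hFd]
    simp only
    rw [indicator_apply]
    split_ifs
    · exact hM p i
    · rw [abs_zero]; exact hM0
  -- the continuum functional
  have e1 : JC f (mol k fun i p => ext v i (flo L p)) =
      2 * ∑ i, ∫ p : Pt D, ext v i (flo L p) * ∫ t, k t * F i (p + t) := by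
    unfold JC mol
    congr 1
    have h1 : ∀ i, IntegrableOn (fun p : Pt D => f p i * ∫ t, k t * ext v i (flo L (p - t)))
        (Slb D) := by
      intro i
      have h2 : Bs fun p : Pt D => (∫ t, k t * ext v i (flo L (p - t))) * f p i :=
        (hkb.conv (hg i)).mul_bdd (hfm i) ⟨M, fun p => hM p i⟩
      have h3 := (h2.integrable (μ := (volume : Measure (Pt D)))).integrableOn (s := Slb D)
      refine h3.congr (Eventually.of_forall fun p => ?_)
      exact mul_comm _ _
    rw [integral_finsetSum _ fun i _ => h1 i]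
    refine Finset.sum_congr rfl fun i _ => ?_
    rw [← conv_swap (hF i) hkb (hg i), ← integral_indicator Slb_meas]
    congr 1
    funext p
    rw [hFd]
    simp only
    rw [indicator_apply, indicator_apply]
    split_ifs
    · rfl
    · rw [zero_mul]
  have hmf : ∀ i, Measurable fun p : Pt D => f (emb L (flo L p)) i := fun i =>
    (measurable_of_countable (fun z => f (emb L z) i)).comp (flo_meas L)
  have j1 : ∀ i, Bs fun p : Pt D => ext v i (flo L p) * f (emb L (flo L p)) i := fun i =>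
    (hg i).mul_bdd (hmf i) ⟨M, fun p => hM _ _⟩
  have e2 : JL f v = 2 * ∑ i, ∫ p : Pt D, ext v i (flo L p) * f (emb L (flo L p)) i := by
    unfold JL
    congr 1
    have : ∀ p : Pt D, ∑ i, f (emb L (flo L p)) i * ext v i (flo L p) =
        ∑ i, ext v i (flo L p) * f (emb L (flo L p)) i := fun p =>
      Finset.sum_congr rfl fun i _ => mul_comm _ _
    simp only [this]
    rw [integral_finsetSum _ fun i _ => (j1 i).integrable]
  -- the inner function
  obtain ⟨Φ, hΦ⟩ : ∃ Φ : Fin D → Pt D → ℝ, Φ = fun i p => ∫ t, k t * F i (p + t) := ⟨_, rfl⟩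
  have hΦm : ∀ i, Measurable (Φ i) := by
    intro i
    rw [hΦ]
    have h1 : StronglyMeasurable (Function.uncurry fun (p t : Pt D) => k t * F i (p + t)) := by
      refine Measurable.stronglyMeasurable ?_
      exact (hkb.meas.comp measurable_snd).mul
        ((hF i).meas.comp (measurable_fst.add measurable_snd))
    exact (h1.integral_prod_right (ν := volume)).measurable
  have hki : Integrable k volume := hkb.integrable
  have hkF : ∀ i p, Integrable (fun t => k t * F i (p + t)) volume := fun i p =>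
    (hkb.mul_bdd ((hF i).meas.comp (measurable_const.add measurable_id))
      ⟨M, fun t => hFb i _⟩).integrable
  have hΦd : ∀ i p (c : ℝ), c - Φ i p = ∫ t, k t * (c - F i (p + t)) := by
    intro i p c
    have : ∫ t, k t * (c - F i (p + t)) = c * (∫ t, k t) - Φ i p := by
      rw [← integral_const_mul, hΦ]
      simp only
      rw [← integral_sub (hki.const_mul c) (hkF i p)]
      congr 1
      funext t
      ring
    rw [this, hk.one, mul_one]
  have hdb : ∀ i p (c B : ℝ), (∀ t, k t ≠ 0 → |c - F i (p + t)| ≤ B) → |c - Φ i p| ≤ B := by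
    intro i p c B h
    rw [hΦd]
    calc |∫ t, k t * (c - F i (p + t))| ≤ ∫ t, |k t * (c - F i (p + t))| :=
          abs_integral_le_integral_abs
      _ ≤ ∫ t, B * k t := by
          refine integral_mono_of_nonneg (Eventually.of_forall fun _ => abs_nonneg _)
            (hki.const_mul _) (Eventually.of_forall fun t => ?_)
          simp only
          rw [abs_mul, abs_of_nonneg (hk.nn t)]
          by_cases h1 : k t = 0
          · rw [h1]; simp
          · rw [mul_comm]
            exact mul_le_mul_of_nonneg_right (h t h1) (hk.nn t)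
      _ = B := by rw [integral_const_mul, hk.one, mul_one]
  -- the pointwise bound
  obtain ⟨E, hE⟩ : ∃ E : Pt D → ℝ, E = fun p =>
      (Metric.closedBall (0 : Pt D) (R + 4)).indicator (fun _ => 2 * ω ^ 2) p +
      ((Metric.closedBall (0 : Fin D → ℝ) (R + 4)) ×ˢ (Ioc (1 - 3 * δ) (1 + 1 / (L : ℝ))) :
        Set (Pt D)).indicator (fun _ => 8 * M ^ 2) p := ⟨_, rfl⟩
  have hlm : MeasurableSet ((Metric.closedBall (0 : Fin D → ℝ) (R + 4)) ×ˢ
      (Ioc (1 - 3 * δ) (1 + 1 / (L : ℝ))) : Set (Pt D)) :=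
    Metric.isClosed_closedBall.measurableSet.prod measurableSet_Ioc
  have hlf : volume ((Metric.closedBall (0 : Fin D → ℝ) (R + 4)) ×ˢ
      (Ioc (1 - 3 * δ) (1 + 1 / (L : ℝ))) : Set (Pt D)) ≠ ⊤ := by
    rw [Measure.volume_eq_prod, Measure.prod_prod]
    exact ENNReal.mul_ne_top (isCompact_closedBall _ _).measure_lt_top.ne (by simp)
  have hE0 : ∀ p, 0 ≤ E p := by
    intro p
    rw [hE]
    exact add_nonneg (indicator_nonneg (fun _ _ => by positivity) _)
      (indicator_nonneg (fun _ _ => by positivity) _)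
  have hEi : Integrable E volume := by
    rw [hE]
    refine (ball_int _ _).add ?_
    rw [integrable_indicator_iff hlm]
    exact integrableOn_const hlf
  have hEv : ∫ p, E p = 2 * ω ^ 2 * V + 8 * M ^ 2 * (V' * (3 * δ + 1 / (L : ℝ))) := by
    rw [hE, integral_add (ball_int _ _) (by
      rw [integrable_indicator_iff hlm]
      exact integrableOn_const hlf), integral_indicator_const _
        Metric.isClosed_closedBall.measurableSet, integral_indicator_const _ hlm, layer_vol _ _ _
        (by linarith), hV, hV', smul_eq_mul, smul_eq_mul]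
    ring
  have hpt : ∀ i (p : Pt D), ext v i (flo L p) ≠ 0 → (f (emb L (flo L p)) i - Φ i p) ^ 2 ≤ E p := by
    intro i p hp
    have hin : inS L (flo L p) := by
      by_contra h
      exact hp (ext_out h)
    have hd1 := emb_flo_dist hL p
    have hpa := norm_emb_flo hL p
    -- heights
    have hh1 : 0 ≤ p.2 := by
      have h1 : (1 : ℤ) ≤ ⌊(L : ℝ) * p.2⌋ := hin.1
      rw [Int.le_floor] at h1
      by_contra h
      rw [not_le] at h
      have : (L : ℝ) * p.2 < 0 := mul_neg_of_pos_of_neg h0 h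
      norm_num at h1
      linarith
    have hh2 : p.2 ≤ 1 + 1 / (L : ℝ) := by
      have h1 : ⌊(L : ℝ) * p.2⌋ ≤ (L : ℤ) := hin.2
      have h2 := Int.lt_floor_add_one ((L : ℝ) * p.2)
      have h3 : (⌊(L : ℝ) * p.2⌋ : ℝ) ≤ L := by exact_mod_cast h1
      have h4 : (L : ℝ) * p.2 ≤ L * (1 + 1 / (L : ℝ)) := by
        have : (L : ℝ) * (1 + 1 / (L : ℝ)) = L + 1 := by field_simp
        rw [this]; linarith
      exact le_of_mul_le_mul_left h4 h0
    by_cases hball : R + 4 < ‖p‖
    · have z1 : f (emb L (flo L p)) = 0 := hz _ (by linarith)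
      have z2 : |f (emb L (flo L p)) i - Φ i p| ≤ 0 := by
        refine hdb i p _ 0 fun t ht => ?_
        have h1 := (hk.supp t ht).2
        have h2 : R < ‖p + t‖ := by
          have h3 : p = (p + t) - t := by abel
          have h4 : ‖p‖ ≤ ‖p + t‖ + ‖t‖ := by
            calc ‖p‖ = ‖(p + t) - t‖ := by rw [← h3]
              _ ≤ _ := norm_sub_le _ _
          linarith
        have h5 : F i (p + t) = 0 := by
          rw [hFd]
          simp only
          rw [indicator_apply, hz _ h2]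
          simp
        rw [z1, h5]; simp
      have z3 : f (emb L (flo L p)) i - Φ i p = 0 := by
        rw [← abs_eq_zero]; exact le_antisymm z2 (abs_nonneg _)
      rw [z3]
      simpa using hE0 p
    · rw [not_lt] at hball
      have hb1 : p ∈ Metric.closedBall (0 : Pt D) (R + 4) := by
        rw [mem_closedBall_zero_iff]; exact hball
      by_cases hlay : 1 - 3 * δ < p.2
      · have hb2 : p ∈ ((Metric.closedBall (0 : Fin D → ℝ) (R + 4)) ×ˢ
            (Ioc (1 - 3 * δ) (1 + 1 / (L : ℝ))) : Set (Pt D)) := by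
          refine ⟨?_, hlay, hh2⟩
          rw [mem_closedBall_zero_iff]
          exact (norm_fst_le p).trans hball
        have z2 : |f (emb L (flo L p)) i - Φ i p| ≤ 2 * M := by
          refine hdb i p _ _ fun t _ => ?_
          have := hM (emb L (flo L p)) i
          have := hFb i (p + t)
          exact (abs_sub _ _).trans (by linarith)
        rw [hE]
        simp only
        rw [indicator_of_mem hb1, indicator_of_mem hb2]
        have z3 : (f (emb L (flo L p)) i - Φ i p) ^ 2 ≤ (2 * M) ^ 2 := by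
          rw [← sq_abs]
          exact pow_le_pow_left₀ (abs_nonneg _) z2 2
        nlinarith [sq_nonneg ω, sq_nonneg M]
      · rw [not_lt] at hlay
        have z2 : |f (emb L (flo L p)) i - Φ i p| ≤ ω := by
          refine hdb i p _ _ fun t ht => ?_
          obtain ⟨h1, h2⟩ := hk.supp t ht
          have h3 : |t.2| ≤ 3 * δ := by
            have := norm_snd_le t
            rw [Real.norm_eq_abs] at this
            linarith
          have h4 : p + t ∈ Slb D := by
            constructor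
            · show 0 ≤ p.2 + t.2
              linarith
            · show p.2 + t.2 ≤ 1
              have := (abs_le.1 h3).2
              linarith
          have h5 : F i (p + t) = f (p + t) i := by
            rw [hFd]
            simp only
            rw [indicator_of_mem h4]
          rw [h5]
          refine hc _ _ i ?_
          have h6 : emb L (flo L p) - (p + t) = (emb L (flo L p) - p) - t := by abel
          rw [h6]
          exact (norm_sub_le _ _).trans (by linarith)
        rw [hE]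
        simp only
        rw [indicator_of_mem hb1]
        have z3 : (f (emb L (flo L p)) i - Φ i p) ^ 2 ≤ ω ^ 2 := by
          rw [← sq_abs]
          exact pow_le_pow_left₀ (abs_nonneg _) z2 2
        have z4 : 0 ≤ ((Metric.closedBall (0 : Fin D → ℝ) (R + 4)) ×ˢ
            (Ioc (1 - 3 * δ) (1 + 1 / (L : ℝ))) : Set (Pt D)).indicator (fun _ => 8 * M ^ 2) p :=
          indicator_nonneg (fun _ _ => by positivity) _
        nlinarith [sq_nonneg ω]
  -- each component
  have hcomp : ∀ i, 2 * ((∫ p : Pt D, ext v i (flo L p) * f (emb L (flo L p)) i) -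
      ∫ p : Pt D, ext v i (flo L p) * Φ i p) ≤
      η * (∫ p : Pt D, ext v i (flo L p) ^ 2) + (1 / η) * ∫ p, E p := by
    intro i
    have hΦb : ∀ p, |Φ i p| ≤ M := by
      intro p
      have := hdb i p 0 M (fun t _ => by rw [zero_sub, abs_neg]; exact hFb i _)
      rwa [zero_sub, abs_neg] at this
    have j2 : Bs fun p : Pt D => ext v i (flo L p) * Φ i p :=
      (hg i).mul_bdd (hΦm i) ⟨M, hΦb⟩
    rw [← integral_sub (j1 i).integrable j2.integrable, ← integral_const_mul,
      ← integral_const_mul, ← integral_const_mul,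
      ← integral_add ((hg i).sq.integrable.const_mul _) (hEi.const_mul _)]
    refine integral_mono (((j1 i).integrable.sub j2.integrable).const_mul 2)
      (((hg i).sq.integrable.const_mul _).add (hEi.const_mul _)) fun p => ?_
    simp only
    by_cases hp : ext v i (flo L p) = 0
    · rw [hp]
      have := hE0 p
      simp only [zero_mul, sub_zero, mul_zero]
      positivity
    · have h1 := hpt i p hp
      obtain ⟨x, hx⟩ : ∃ x, x = ext v i (flo L p) := ⟨_, rfl⟩
      obtain ⟨y, hy⟩ : ∃ y, y = f (emb L (flo L p)) i - Φ i p := ⟨_, rfl⟩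
      have h2 : 2 * (x * y) ≤ η * x ^ 2 + (1 / η) * y ^ 2 := by
        have h3 : η * x ^ 2 + (1 / η) * y ^ 2 - 2 * (x * y) = (1 / η) * (η * x - y) ^ 2 := by
          field_simp
          ring
        have h4 : 0 ≤ (1 / η) * (η * x - y) ^ 2 := by positivity
        linarith
      have h3 : (1 / η) * y ^ 2 ≤ (1 / η) * E p := by
        refine mul_le_mul_of_nonneg_left ?_ (by positivity)
        rw [hy]; exact h1
      calc _ = 2 * (x * y) := by rw [hx, hy]; ring
        _ ≤ η * x ^ 2 + (1 / η) * E p := by linarith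
        _ = _ := by rw [hx]
  have hsum := Finset.sum_le_sum fun i (_ : i ∈ Finset.univ) => hcomp i
  rw [← Finset.mul_sum, Finset.sum_sub_distrib, Finset.sum_add_distrib, ← Finset.mul_sum] at hsum
  have hNL : NL v = ∑ i, ∫ p : Pt D, ext v i (flo L p) ^ 2 := by
    unfold NL
    rw [integral_finsetSum _ fun i _ => (hg i).sq.integrable]
  have e3 : ∑ i, ∫ p : Pt D, ext v i (flo L p) * Φ i p =
      ∑ i, ∫ p : Pt D, ext v i (flo L p) * ∫ t, k t * F i (p + t) := by rw [hΦ]
  rw [e1, e2, ← e3, hNL]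
  have e4 : ∑ _i : Fin D, 1 / η * ∫ p, E p = (1 / η) * (D * ∫ p, E p) := by
    rw [Finset.sum_const, Finset.card_univ, Fintype.card_fin, nsmul_eq_mul]; ring
  rw [e4] at hsum
  have h5 : (D : ℝ) * ∫ p, E p ≤
      D * (2 * V + 8 * M ^ 2 * V') * (ω ^ 2 + 3 * δ + 1 / (L : ℝ)) := by
    rw [hEv, mul_assoc (D : ℝ)]
    refine mul_le_mul_of_nonneg_left ?_ (Nat.cast_nonneg _)
    have q1 : 0 ≤ 2 * V * (3 * δ + 1 / (L : ℝ)) := by positivity
    have q2 : 0 ≤ 8 * M ^ 2 * V' * ω ^ 2 := by positivity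
    nlinarith
  have h6 := mul_le_mul_of_nonneg_left h5 (show 0 ≤ 1 / η by positivity)
  linarith

/-- **the lattice variational problem is at most the continuum one, up to a small error** -/
theorem up {f : Pt D → Fin D → ℝ} (hf : Continuous f) (hfs : HasCompactSupport f) {γ : ℝ}
    (hγ : 0 < γ) : ∃ L₀ : ℕ, 1 ≤ L₀ ∧ ∀ L : ℕ, L₀ ≤ L → ∀ (A : Finset (Site D))
      (v : Site D → Lab D L → ℝ), Sup A v → JL f v - EL v ≤ QC f + γ := by
  obtain ⟨W, hW0, hW⟩ := src_err hf hfs
  obtain ⟨Q, hQ⟩ : ∃ Q, Q = QC f := ⟨_, rfl⟩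
  have hQ0 : 0 ≤ Q := hQ ▸ QC_nonneg hf hfs
  obtain ⟨V, hV⟩ : ∃ V, V = volume.real (Metric.closedBall (0 : Pt D) 4) := ⟨_, rfl⟩
  have hV0 : 0 ≤ V := hV ▸ measureReal_nonneg
  -- parameters
  obtain ⟨η, hη⟩ : ∃ η, η = min (1 / 9) (γ / (16 * (Q + 1))) := ⟨_, rfl⟩
  have hη0 : 0 < η := by rw [hη]; positivity
  have hη1 : η ≤ 1 / 9 := hη ▸ min_le_left _ _
  have hη2 : 8 * η * Q ≤ γ / 2 := by
    have h1 : η ≤ γ / (16 * (Q + 1)) := hη ▸ min_le_right _ _
    have h2 : 8 * η * (Q + 1) ≤ γ / 2 := by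
      calc 8 * η * (Q + 1) ≤ 8 * (γ / (16 * (Q + 1))) * (Q + 1) := by gcongr
        _ = γ / 2 := by field_simp; norm_num
    nlinarith
  obtain ⟨c, hc⟩ : ∃ c, c = γ * η / (2 * (W + 1)) := ⟨_, rfl⟩
  have hc0 : 0 < c := by rw [hc]; positivity
  have huc : UniformContinuous f := hfs.uniformContinuous_of_continuous hf
  rw [Metric.uniformContinuous_iff] at huc
  obtain ⟨r, hr, H⟩ := huc (Real.sqrt (c / 3)) (by positivity)
  obtain ⟨δ, hδd⟩ : ∃ δ, δ = min 1 (min (r / 9) (c / 9)) := ⟨_, rfl⟩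
  have hδ0 : 0 < δ := by rw [hδd]; positivity
  have hδ1 : δ ≤ 1 := hδd ▸ min_le_left _ _
  have hδ2 : δ ≤ r / 9 := hδd ▸ (min_le_right _ _).trans (min_le_left _ _)
  have hδ3 : δ ≤ c / 9 := hδd ▸ (min_le_right _ _).trans (min_le_right _ _)
  obtain ⟨k, hk⟩ := exists_ker (D := D) hδ0
  obtain ⟨ε, hε⟩ : ∃ ε, ε = Real.sqrt (η / ((1 + 1 / η) * (V ^ 2 + 1) * (1 + 4 * D) * (9 / 4))) :=
    ⟨_, rfl⟩
  have hε0 : 0 < ε := by rw [hε]; positivity
  have hε2 : (1 + 1 / η) * ((ε * V) ^ 2 * (1 + 4 * D)) * (9 / 4) ≤ η := by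
    have h1 : ε ^ 2 = η / ((1 + 1 / η) * (V ^ 2 + 1) * (1 + 4 * D) * (9 / 4)) := by
      rw [hε, Real.sq_sqrt (by positivity)]
    have h2 : (ε * V) ^ 2 ≤ ε ^ 2 * (V ^ 2 + 1) := by
      rw [mul_pow]; nlinarith [sq_nonneg ε]
    calc (1 + 1 / η) * ((ε * V) ^ 2 * (1 + 4 * D)) * (9 / 4) ≤
          (1 + 1 / η) * ((ε ^ 2 * (V ^ 2 + 1)) * (1 + 4 * D)) * (9 / 4) := by gcongr
      _ = η := by rw [h1]; field_simp
  obtain ⟨L₁, hL₁, HL₁⟩ := quot_unif hk.smooth hk.comp hε0
  obtain ⟨n, hn⟩ := exists_nat_gt (max (2 / r) (3 / c))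
  refine ⟨max L₁ n, le_max_of_le_left hL₁, fun L hL A v hv => ?_⟩
  have hLL : L₁ ≤ L := (le_max_left _ _).trans hL
  have hL1 : 1 ≤ L := hL₁.trans hLL
  have h0 : (0 : ℝ) < L := by exact_mod_cast hL1
  have hnL : (n : ℝ) ≤ L := by exact_mod_cast (le_max_right _ _).trans hL
  have hr2 : 1 / (L : ℝ) ≤ r / 2 := by
    have h1 : 2 / r < L := lt_of_le_of_lt (le_max_left _ _) (lt_of_lt_of_le hn hnL)
    rw [div_lt_iff₀ hr] at h1
    rw [div_le_div_iff₀ h0 (by norm_num)]
    linarith
  have hc2 : 1 / (L : ℝ) ≤ c / 3 := by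
    have h1 : 3 / c < L := lt_of_le_of_lt (le_max_right _ _) (lt_of_lt_of_le hn hnL)
    rw [div_lt_iff₀ hc0] at h1
    rw [div_le_div_iff₀ h0 (by norm_num)]
    linarith
  have hen := EC_mol hL1 hv hδ0 hδ1 hk hη0 (HL₁ L hLL)
  have hsr := hW L hL1 A v hv k δ hδ0 hδ1 hk (Real.sqrt (c / 3)) η (Real.sqrt_nonneg _) hη0 (by
    intro a b i hab
    have h1 : dist a b < r := by
      rw [dist_eq_norm]
      linarith
    have h2 := H h1
    rw [dist_eq_norm] at h2
    have h3 := norm_le_pi_norm (f a - f b) i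
    rw [Real.norm_eq_abs] at h3
    exact h3.trans h2.le)
  rw [Real.sq_sqrt (by positivity)] at hsr
  rw [← hV] at hen
  have hco := EL_coer hL1 hv
  have htest : IsTest (mol k fun i p => ext v i (flo L p)) := by
    refine mol_test hδ0 hk (Bs_ext hL1 hv) fun i p hp => ext_out ?_
    rintro ⟨h1, -⟩
    have h2 : (1 : ℤ) ≤ ⌊(L : ℝ) * p.2⌋ := h1
    rw [Int.le_floor] at h2
    have : (L : ℝ) * p.2 < 0 := mul_neg_of_pos_of_neg h0 hp
    norm_num at h2
    linarith
  obtain ⟨u, hu⟩ : ∃ u, u = mol k fun i (p : Pt D) => ext v i (flo L p) := ⟨_, rfl⟩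
  rw [← hu] at hen hsr htest
  obtain ⟨e, he⟩ : ∃ e, e = EL v := ⟨_, rfl⟩
  obtain ⟨N, hN⟩ : ∃ N, N = NL v := ⟨_, rfl⟩
  have hN0 : 0 ≤ N := by
    rw [hN]; exact integral_nonneg fun _ => Finset.sum_nonneg fun _ _ => by positivity
  rw [← he, ← hN] at hen hco
  rw [← hN] at hsr
  rw [← he, ← hQ]
  have he0 : 0 ≤ e := by linarith
  have hNe : N ≤ 9 / 4 * e := by linarith
  have hen2 : EC u ≤ (1 + 2 * η) * e := by
    have h1 : (1 + 1 / η) * ((ε * V) ^ 2 * ((1 + 4 * D) * N)) ≤
        (1 + 1 / η) * ((ε * V) ^ 2 * (1 + 4 * D)) * (9 / 4) * e := by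
      calc _ = (1 + 1 / η) * ((ε * V) ^ 2 * (1 + 4 * D)) * N := by ring
        _ ≤ (1 + 1 / η) * ((ε * V) ^ 2 * (1 + 4 * D)) * (9 / 4 * e) :=
            mul_le_mul_of_nonneg_left hNe (by positivity)
        _ = _ := by ring
    have h2 := mul_le_mul_of_nonneg_right hε2 he0
    linarith
  have hs4 : (1 / η) * (W * (c / 3 + 3 * δ + 1 / (L : ℝ))) ≤ γ / 2 := by
    have h1 : c / 3 + 3 * δ + 1 / (L : ℝ) ≤ c := by linarith
    calc (1 / η) * (W * (c / 3 + 3 * δ + 1 / (L : ℝ))) ≤ (1 / η) * ((W + 1) * c) := by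
          refine mul_le_mul_of_nonneg_left ?_ (by positivity)
          exact mul_le_mul (by linarith) h1 (by positivity) (by linarith)
      _ = γ / 2 := by rw [hc]; field_simp
  -- the scaling
  obtain ⟨s, hs⟩ : ∃ s, s = (1 - 9 / 4 * η) / (1 + 2 * η) := ⟨_, rfl⟩
  have hs0 : 0 < s := by
    rw [hs]
    apply div_pos <;> linarith
  have hs1 : 1 / s ≤ 1 + 8 * η := by
    rw [hs, one_div_div, div_le_iff₀ (by linarith)]
    nlinarith
  have hsc := scale_QC hf hfs htest hs0
  rw [← hQ] at hsc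
  have hse : s * EC u ≤ (1 - 9 / 4 * η) * e := by
    have h1 := mul_le_mul_of_nonneg_left hen2 hs0.le
    have h2 : s * ((1 + 2 * η) * e) = (1 - 9 / 4 * η) * e := by
      rw [hs]; field_simp
    linarith
  have hq : (1 / s) * Q ≤ Q + γ / 2 := by
    have := mul_le_mul_of_nonneg_right hs1 hQ0
    linarith
  have hηN : η * N ≤ 9 / 4 * η * e := by
    have := mul_le_mul_of_nonneg_left hNe hη0.le
    linarith
  linarith

end

end Pool.Agent.N990.C
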