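import Pool.Agent.N990.C.Young
import Pool.Agent.N990.Slab.Ker

/-!
# The continuum energy and the lattice energy
-/

set_option autoImplicit false
set_option linter.unusedSectionVars false

open MeasureTheory Set Filter Topology
open scoped Classical

namespace Pool.Agent.N990.C

open Pool.Agent.N990

noncomputable section

variable {D L : ℕ}

/-! ### The continuum -/

/-- the slab of thickness one -/
def Slb (D : ℕ) : Set (Pt D) := {p | 0 ≤ p.2 ∧ p.2 ≤ 1}

/-- the horizontal direction `k` -/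
def eh (k : Fin D) : Pt D := (Pi.single k 1, 0)

/-- the vertical direction -/
def ez (D : ℕ) : Pt D := (0, 1)

/-- the derivative of the component `i` in the direction `e` -/
def pd (u : Pt D → Fin D → ℝ) (e : Pt D) (i : Fin D) (p : Pt D) : ℝ := fderiv ℝ u p e i

/-- the energy density -/
def dC (u : Pt D → Fin D → ℝ) (p : Pt D) : ℝ :=
  ∑ i, pd u (ez D) i p ^ 2 + ∑ i, ∑ j, if i < j then (pd u (eh i) j p - pd u (eh j) i p) ^ 2 else 0

/-- the energy -/
def EC (u : Pt D → Fin D → ℝ) : ℝ := ∫ p in Slb D, dC u p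

/-- the smooth fields with compact support which vanish at the wall -/
structure IsTest (u : Pt D → Fin D → ℝ) : Prop where
  smooth : ContDiff ℝ 1 u
  supp : HasCompactSupport u
  wall : ∀ y, u (y, 0) = 0

/-- the functional -/
def JC (f u : Pt D → Fin D → ℝ) : ℝ := 2 * ∫ p in Slb D, ∑ i, f p i * u p i

/-- the variance of the free field smeared with `f` -/
def QC (f : Pt D → Fin D → ℝ) : ℝ := sSup {t | ∃ u, IsTest u ∧ t = JC f u - EC u}

/-! ### The lattice -/

/-- horizontal unit vectors -/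
def zh (k : Fin D) : LPt D := (Pi.single k 1, 0)

/-- the vertical unit vector -/
def zv (D : ℕ) : LPt D := (0, 1)

lemma emb_zh {L : ℕ} (k : Fin D) : emb L (zh k) = (1 / (L : ℝ)) • eh k := by
  unfold emb zh eh
  ext j
  · simp only [Prod.smul_mk, Pi.smul_apply, smul_eq_mul, Pi.single_apply]
    split_ifs <;> simp
  · simp

lemma emb_zv {L : ℕ} : emb L (zv D) = (1 / (L : ℝ)) • ez D := by
  unfold emb zv ez
  ext j
  · simp
  · simp

/-- the height is in the slab -/
def inS (L : ℕ) (z : LPt D) : Prop := 1 ≤ z.2 ∧ z.2 ≤ L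

/-- extension of a lattice field by zero -/
def ext (v : Site D → Lab D L → ℝ) (i : Fin D) (z : LPt D) : ℝ :=
  if h : 1 ≤ z.2 ∧ z.2 ≤ L then v z.1 (i, ⟨(z.2 - 1).toNat, by omega⟩) else 0

lemma ext_out {v : Site D → Lab D L → ℝ} {i : Fin D} {z : LPt D} (h : ¬(1 ≤ z.2 ∧ z.2 ≤ L)) :
    ext v i z = 0 := dif_neg h

lemma ext_site (v : Site D → Lab D L → ℝ) (i : Fin D) (x : Site D) (s : Fin L) :
    ext v i (x, ((s : ℕ) : ℤ) + 1) = v x (i, s) := by
  unfold ext
  have hs := s.2
  rw [dif_pos ⟨by simp only; omega, by simp only; omega⟩]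
  congr 2
  ext
  simp only
  omega

/-- vertical derivative -/
def vd (v : Site D → Lab D L → ℝ) (i : Fin D) (z : LPt D) : ℝ := ext v i z - ext v i (z - zv D)

/-- horizontal curl -/
def hd (v : Site D → Lab D L → ℝ) (i j : Fin D) (z : LPt D) : ℝ :=
  (ext v j (z + zh i) - ext v j z) - (ext v i (z + zh j) - ext v i z)

/-- energy density -/
def dL (v : Site D → Lab D L → ℝ) (z : LPt D) : ℝ :=
  ∑ i, ((L : ℝ) * vd v i z) ^ 2 + ∑ i, ∑ j, if i < j then ((L : ℝ) * hd v i j z) ^ 2 else 0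

/-- energy -/
def EL (v : Site D → Lab D L → ℝ) : ℝ :=
  ∫ p : Pt D, if inS L (flo L p) then dL v (flo L p) else 0

/-- the squared norm -/
def NL (v : Site D → Lab D L → ℝ) : ℝ := ∫ p : Pt D, ∑ i, ext v i (flo L p) ^ 2

/-- the functional -/
def JL (f : Pt D → Fin D → ℝ) (v : Site D → Lab D L → ℝ) : ℝ :=
  2 * ∫ p : Pt D, ∑ i, f (emb L (flo L p)) i * ext v i (flo L p)

lemma low_ext (v : Site D → Lab D L → ℝ) (i : Fin D) (x : Site D) (s : Fin L) :
    ext v i ((x, ((s : ℕ) : ℤ) + 1) - zv D) = low (v x) (i, s) := by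
  have e : ((x, ((s : ℕ) : ℤ) + 1) : LPt D) - zv D = (x, ((s : ℕ) : ℤ)) := by
    unfold zv
    ext <;> simp
  rw [e]
  unfold ext low
  have hs := s.2
  by_cases h : (s : ℕ) = 0
  · rw [dif_neg (by simp only; omega), dif_pos h]
  · rw [dif_pos ⟨by simp only; omega, by simp only; omega⟩, dif_neg h]
    congr 2
    ext
    simp only
    omega

lemma vd_site (v : Site D → Lab D L → ℝ) (i : Fin D) (x : Site D) (s : Fin L) :
    vd v i (x, ((s : ℕ) : ℤ) + 1) = dv v x (i, s) := by
  unfold vd dv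
  rw [ext_site, low_ext]

lemma hd_site (v : Site D → Lab D L → ℝ) (i j : Fin D) (x : Site D) (s : Fin L) :
    hd v i j (x, ((s : ℕ) : ℤ) + 1) = dp v x ((i, j), s) := by
  unfold hd dp
  have e : ∀ k : Fin D, ((x, ((s : ℕ) : ℤ) + 1) : LPt D) + zh k =
      (x + ev k, ((s : ℕ) : ℤ) + 1) := by
    intro k
    unfold zh ev
    ext <;> simp
  rw [e, e, ext_site, ext_site, ext_site, ext_site]
  ring

lemma dL_site (v : Site D → Lab D L → ℝ) (x : Site D) :
    ∑ s : Fin L, dL v (x, ((s : ℕ) : ℤ) + 1) = (L : ℝ) ^ 2 * bx v v x := by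
  unfold dL bx
  simp only [vd_site, hd_site]
  rw [Finset.sum_add_distrib, mul_add]
  congr 1
  · rw [Finset.sum_comm, Finset.mul_sum, Fintype.sum_prod_type]
    refine Finset.sum_congr rfl fun i _ => Finset.sum_congr rfl fun s _ => ?_
    rw [smul_eq_mul]; ring
  · unfold plabs
    rw [Finset.sum_filter, Finset.mul_sum, Fintype.sum_prod_type, Fintype.sum_prod_type,
      Finset.sum_comm]
    refine Finset.sum_congr rfl fun i _ => ?_
    rw [Finset.sum_comm]
    refine Finset.sum_congr rfl fun j _ => Finset.sum_congr rfl fun s _ => ?_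
    simp only
    split_ifs
    · rw [smul_eq_mul]; ring
    · rw [mul_zero]

lemma ext_zero {A : Finset (Site D)} {v : Site D → Lab D L → ℝ} (hv : ∀ x ∉ A, v x = 0)
    {i : Fin D} {z : LPt D} (hz : z.1 ∉ A) : ext v i z = 0 := by
  unfold ext
  split_ifs
  · rw [hv _ hz]; rfl
  · rfl

lemma dL_supp {A : Finset (Site D)} {v : Site D → Lab D L → ℝ} (hv : ∀ x ∉ A, v x = 0)
    {z : LPt D} (hz : z.1 ∉ Ns A) : dL v z = 0 := by
  rw [mem_Ns, not_or, not_exists] at hz
  have h1 : ∀ i, vd v i z = 0 := by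
    intro i
    unfold vd
    rw [ext_zero hv hz.1, ext_zero hv (show (z - zv D).1 ∉ A by
      have : (z - zv D).1 = z.1 := by unfold zv; simp
      rw [this]; exact hz.1), sub_zero]
  have h2 : ∀ i j, hd v i j z = 0 := by
    intro i j
    have h3 : ∀ k, (z + zh k).1 ∉ A := by
      intro k
      have : (z + zh k).1 = z.1 + ev k := by unfold zh ev; simp
      rw [this]; exact hz.2 k
    unfold hd
    rw [ext_zero hv hz.1, ext_zero hv hz.1, ext_zero hv (h3 i), ext_zero hv (h3 j)]
    ring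
  unfold dL
  simp only [h1, h2]
  simp

/-- the energy as a lattice sum -/
theorem EL_eq (hL : 1 ≤ L) {A P : Finset (Site D)} {v : Site D → Lab D L → ℝ}
    (hv : ∀ x ∉ A, v x = 0) (hP : Ns A ⊆ P) :
    EL v = (1 / (L : ℝ)) ^ (D + 1) * ((L : ℝ) ^ 2 * ∑ x ∈ P, bx v v x) := by
  unfold EL
  rw [int_flo hL P (fun z => if inS L z then dL v z else 0)]
  · congr 1
    rw [Finset.mul_sum]
    refine Finset.sum_congr rfl fun x _ => ?_
    rw [← dL_site]
    refine Finset.sum_congr rfl fun s _ => ?_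
    rw [if_pos]
    have := s.2
    exact ⟨by simp only; omega, by simp only; omega⟩
  · intro z hz
    by_cases h : inS L z
    · rw [if_pos h] at hz
      refine ⟨hP ?_, h.1, h.2⟩
      by_contra h2
      exact hz (dL_supp hv h2)
    · rw [if_neg h] at hz
      exact absurd rfl hz

lemma NL_eq (hL : 1 ≤ L) {A : Finset (Site D)} {v : Site D → Lab D L → ℝ}
    (hv : ∀ x ∉ A, v x = 0) :
    NL v = (1 / (L : ℝ)) ^ (D + 1) * ∑ x ∈ A, ∑ a, v x a ^ 2 := by
  unfold NL
  rw [int_flo hL A (fun z => ∑ i, ext v i z ^ 2)]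
  · congr 1
    refine Finset.sum_congr rfl fun x _ => ?_
    rw [Finset.sum_comm, Fintype.sum_prod_type]
    refine Finset.sum_congr rfl fun i _ => Finset.sum_congr rfl fun s _ => ?_
    rw [ext_site]
  · intro z hz
    constructor
    · by_contra h2
      refine hz (Finset.sum_eq_zero fun i _ => ?_)
      rw [ext_zero hv h2]; norm_num
    · by_contra h2
      refine hz (Finset.sum_eq_zero fun i _ => ?_)
      rw [ext_out h2]; norm_num

lemma JL_eq (hL : 1 ≤ L) (f : Pt D → Fin D → ℝ) {A : Finset (Site D)} {v : Site D → Lab D L → ℝ}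
    (hv : ∀ x ∉ A, v x = 0) :
    JL f v = 2 * ((1 / (L : ℝ)) ^ (D + 1) * ∑ x ∈ A, ∑ a : Lab D L,
      f (emb L (x, ((a.2 : ℕ) : ℤ) + 1)) a.1 * v x a) := by
  unfold JL
  rw [int_flo hL A (fun z => ∑ i, f (emb L z) i * ext v i z)]
  · congr 2
    refine Finset.sum_congr rfl fun x _ => ?_
    rw [Finset.sum_comm, Fintype.sum_prod_type]
    refine Finset.sum_congr rfl fun i _ => Finset.sum_congr rfl fun s _ => ?_
    rw [ext_site]
  · intro z hz
    constructor
    · by_contra h2
      refine hz (Finset.sum_eq_zero fun i _ => ?_)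
      rw [ext_zero hv h2]; norm_num
    · by_contra h2
      refine hz (Finset.sum_eq_zero fun i _ => ?_)
      rw [ext_out h2]; norm_num

end

end Pool.Agent.N990.C
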