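import Pool.Agent.N990.C.Low

/-!
# The functional of a smooth field converges; the supremum is finite
-/

set_option autoImplicit false
set_option linter.unusedSectionVars false

open MeasureTheory Set Filter Topology
open scoped Classical

namespace Pool.Agent.N990.C

open Pool.Agent.N990

noncomputable section

variable {D : ℕ}

/-- a bound for a continuous source -/
lemma src_bd {f : Pt D → Fin D → ℝ} (hf : Continuous f) (hs : HasCompactSupport f) :
    ∃ M R : ℝ, 0 ≤ M ∧ 0 ≤ R ∧ (∀ p i, |f p i| ≤ M) ∧ ∀ p, R < ‖p‖ → f p = 0 := by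
  obtain ⟨C, hC⟩ := hs.exists_bound_of_continuous hf
  obtain ⟨R, hR⟩ := hs.isCompact.isBounded.subset_closedBall (0 : Pt D)
  have hC0 : 0 ≤ C := (norm_nonneg _).trans (hC 0)
  refine ⟨C, max R 0, hC0, le_max_right _ _, fun p i => ?_, fun p hp => ?_⟩
  · have h2 := norm_le_pi_norm (f p) i
    rw [Real.norm_eq_abs] at h2
    exact h2.trans (hC p)
  · by_contra h
    have h1 : p ∈ tsupport f := subset_tsupport _ h
    have h2 := hR h1
    rw [mem_closedBall_zero_iff] at h2
    have := le_max_left R 0
    linarith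

lemma norm_emb_flo {L : ℕ} (hL : 1 ≤ L) (p : Pt D) : ‖p‖ ≤ ‖emb L (flo L p)‖ + 1 := by
  have h0 : (0 : ℝ) < L := by exact_mod_cast hL
  have hL1 : (1 : ℝ) ≤ L := by exact_mod_cast hL
  have hL' : 1 / (L : ℝ) ≤ 1 := by rw [div_le_one h0]; exact hL1
  have hd1 := emb_flo_dist hL p
  have h1 : p = emb L (flo L p) - (emb L (flo L p) - p) := by abel
  calc ‖p‖ = ‖emb L (flo L p) - (emb L (flo L p) - p)‖ := by rw [← h1]
    _ ≤ ‖emb L (flo L p)‖ + ‖emb L (flo L p) - p‖ := norm_sub_le _ _
    _ ≤ _ := by linarith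

/-- **the functional converges** -/
theorem JL_tendsto {f u : Pt D → Fin D → ℝ} (hf : Continuous f) (hfs : HasCompactSupport f)
    (hu : IsTest u) : Tendsto (fun L : ℕ => JL f (smp L u)) atTop (𝓝 (JC f u)) := by
  obtain ⟨C, R, hC0, hR0, -, hbd, hz⟩ := test_bd hu
  obtain ⟨M, R', hM0, hR0', hM, hz'⟩ := src_bd hf hfs
  unfold JL JC
  refine Tendsto.const_mul 2 ?_
  have hS : MeasurableSet (Slb D) :=
    (measurableSet_le measurable_const measurable_snd).inter
      (measurableSet_le measurable_snd measurable_const)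
  rw [← integral_indicator hS]
  refine tendsto_integral_filter_of_dominated_convergence
    ((Metric.closedBall (0 : Pt D) (R + 1)).indicator fun _ => ∑ _i : Fin D, M * C)
    ?_ ?_ (ball_int _ _) ?_
  · refine Eventually.of_forall fun L => ?_
    exact ((measurable_of_countable (fun z => ∑ i, f (emb L z) i * ext (smp L u) i z)).comp
      (flo_meas L)).aestronglyMeasurable
  · filter_upwards [eventually_ge_atTop 1] with L hL
    refine Eventually.of_forall fun p => ?_
    by_cases hs : inS L (flo L p)
    · have hpa := norm_emb_flo hL p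
      have e : ∑ i, f (emb L (flo L p)) i * ext (smp L u) i (flo L p) =
          ∑ i, f (emb L (flo L p)) i * u (emb L (flo L p)) i := by
        refine Finset.sum_congr rfl fun i _ => ?_
        obtain ⟨h1, h2⟩ := hs
        rw [ext_smp hu (by omega) h2]
      rw [e]
      by_cases hp : p ∈ Metric.closedBall (0 : Pt D) (R + 1)
      · rw [indicator_of_mem hp]
        refine (norm_sum_le _ _).trans (Finset.sum_le_sum fun i _ => ?_)
        rw [norm_mul, Real.norm_eq_abs, Real.norm_eq_abs]
        exact mul_le_mul (hM _ _) (hbd _ _) (abs_nonneg _) hM0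
      · rw [indicator_of_notMem hp]
        rw [mem_closedBall_zero_iff, not_le] at hp
        rw [hz _ (by linarith)]
        simp
    · have e : ∑ i, f (emb L (flo L p)) i * ext (smp L u) i (flo L p) = 0 := by
        refine Finset.sum_eq_zero fun i _ => ?_
        rw [ext_out hs, mul_zero]
      rw [e, norm_zero]
      refine indicator_nonneg (fun _ _ => ?_) _
      exact Finset.sum_nonneg fun _ _ => by positivity
  · filter_upwards [ae_int] with p hp
    by_cases hps : p ∈ Slb D
    · rw [indicator_of_mem hps]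
      have h1 : Tendsto (fun L : ℕ => ∑ i, f (emb L (flo L p)) i * u (emb L (flo L p)) i) atTop
          (𝓝 (∑ i, f p i * u p i)) := by
        refine tendsto_finsetSum _ fun i _ => Tendsto.mul ?_ ?_
        · exact (((continuous_apply i).comp hf).tendsto p).comp (emb_flo_tendsto p)
        · exact (((continuous_apply i).comp hu.smooth.continuous).tendsto p).comp
            (emb_flo_tendsto p)
      refine h1.congr' ?_
      filter_upwards [inS_ev hp.1 hp.2] with L hL
      refine Finset.sum_congr rfl fun i _ => ?_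
      obtain ⟨h1, h2⟩ := hL.2 hps
      rw [ext_smp hu (by omega) h2]
    · rw [indicator_of_notMem hps]
      refine tendsto_const_nhds.congr' ?_
      filter_upwards [inS_ev hp.1 hp.2] with L hL
      symm
      refine Finset.sum_eq_zero fun i _ => ?_
      rw [ext_out (fun h => hps (hL.1 h)), mul_zero]

/-- the functional is bounded uniformly in the mesh -/
theorem JE_le {f : Pt D → Fin D → ℝ} (hf : Continuous f) (hfs : HasCompactSupport f) :
    ∃ C : ℝ, ∀ (L : ℕ), 1 ≤ L → ∀ (A : Finset (Site D)) (v : Site D → Lab D L → ℝ),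
      Sup A v → JL f v - EL v ≤ C := by
  obtain ⟨M, R', hM0, hR0', hM, hz'⟩ := src_bd hf hfs
  refine ⟨∫ p : Pt D, (Metric.closedBall (0 : Pt D) (R' + 1)).indicator
    (fun _ => ∑ _i : Fin D, 9 / 4 * M ^ 2) p, fun L hL A v hv => ?_⟩
  have h1 := EL_coer hL hv
  have hb : Bs fun p : Pt D => ∑ i, ext v i (flo L p) ^ 2 :=
    Bs.sum _ fun i _ => (Bs_ext hL hv i).sq
  have h2 : JL f v ≤ ∫ p : Pt D, ((Metric.closedBall (0 : Pt D) (R' + 1)).indicator
    (fun _ => ∑ _i : Fin D, 9 / 4 * M ^ 2) p + 4 / 9 * ∑ i, ext v i (flo L p) ^ 2) := by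
    unfold JL
    rw [← integral_const_mul]
    refine integral_mono_of_nonneg_or_int ?_ ((ball_int _ _).add (hb.const_mul _).integrable)
      fun p => ?_
    · have : Bs fun p : Pt D => ∑ i, ext v i (flo L p) * f (emb L (flo L p)) i := by
        refine Bs.sum _ fun i _ => (Bs_ext hL hv i).mul_bdd ?_ ⟨M, fun p => hM _ _⟩
        exact (measurable_of_countable (fun z => f (emb L z) i)).comp (flo_meas L)
      have h3 := (this.const_mul 2).integrable (μ := (volume : Measure (Pt D)))
      refine h3.congr (Eventually.of_forall fun p => ?_)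
      simp only
      congr 1
      exact Finset.sum_congr rfl fun i _ => mul_comm _ _
    · have hpa := norm_emb_flo hL p
      by_cases hp : p ∈ Metric.closedBall (0 : Pt D) (R' + 1)
      · rw [indicator_of_mem hp, Finset.mul_sum, Finset.mul_sum, ← Finset.sum_add_distrib]
        refine Finset.sum_le_sum fun i _ => ?_
        have h3 := hM (emb L (flo L p)) i
        have h4 : f (emb L (flo L p)) i ^ 2 ≤ M ^ 2 := by
          rw [← sq_abs]
          exact pow_le_pow_left₀ (abs_nonneg _) h3 2
        nlinarith [sq_nonneg (3 / 2 * f (emb L (flo L p)) i - 2 / 3 * ext v i (flo L p))]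
      · rw [indicator_of_notMem hp]
        rw [mem_closedBall_zero_iff, not_le] at hp
        rw [hz' _ (by linarith)]
        have h3 : 0 ≤ ∑ i, ext v i (flo L p) ^ 2 := Finset.sum_nonneg fun _ _ => by positivity
        simp only [Pi.zero_apply, zero_mul, Finset.sum_const_zero, mul_zero, zero_add]
        linarith
  rw [integral_add (ball_int _ _) (hb.const_mul _).integrable, integral_const_mul] at h2
  have h3 : NL v = ∫ p : Pt D, ∑ i, ext v i (flo L p) ^ 2 := rfl
  rw [← h3] at h2
  linarith
where
  integral_mono_of_nonneg_or_int {f g : Pt D → ℝ} (hf : Integrable f) (hg : Integrable g)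
      (h : ∀ p, f p ≤ g p) : ∫ p, f p ≤ ∫ p, g p := integral_mono hf hg h

/-- the supremum defining the variance is finite -/
theorem QC_bdd {f : Pt D → Fin D → ℝ} (hf : Continuous f) (hfs : HasCompactSupport f) :
    BddAbove {t | ∃ u, IsTest u ∧ t = JC f u - EC u} := by
  obtain ⟨C, hC⟩ := JE_le hf hfs
  refine ⟨C, ?_⟩
  rintro t ⟨u, hu, rfl⟩
  obtain ⟨K, R, -, hR0, -, -, hz⟩ := test_bd hu
  refine le_of_tendsto ((JL_tendsto hf hfs hu).sub (EL_tendsto hu)) ?_
  filter_upwards [eventually_ge_atTop 1] with L hL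
  obtain ⟨r, hr⟩ := exists_nat_ge (R * L)
  exact hC L hL _ _ (smp_sup hz hr hL)

lemma IsTest.zero : IsTest (0 : Pt D → Fin D → ℝ) :=
  ⟨contDiff_const, HasCompactSupport.zero, fun _ => rfl⟩

lemma IsTest.smul {u : Pt D → Fin D → ℝ} (hu : IsTest u) (c : ℝ) : IsTest (c • u) :=
  ⟨hu.smooth.const_smul c, hu.supp.smul_left (f := fun _ => c), fun y => by
    rw [Pi.smul_apply, hu.wall, smul_zero]⟩

lemma le_QC {f u : Pt D → Fin D → ℝ} (hf : Continuous f) (hfs : HasCompactSupport f)
    (hu : IsTest u) : JC f u - EC u ≤ QC f :=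
  le_csSup (QC_bdd hf hfs) ⟨u, hu, rfl⟩

lemma QC_nonneg {f : Pt D → Fin D → ℝ} (hf : Continuous f) (hfs : HasCompactSupport f) :
    0 ≤ QC f := by
  refine le_trans (le_of_eq ?_) (le_QC hf hfs IsTest.zero)
  unfold JC EC dC pd
  simp

lemma JC_smul {f u : Pt D → Fin D → ℝ} (c : ℝ) : JC f (c • u) = c * JC f u := by
  unfold JC
  have h : ∫ p in Slb D, ∑ i, f p i * (c • u) p i = c * ∫ p in Slb D, ∑ i, f p i * u p i := by
    rw [← integral_const_mul]
    congr 1
    funext p
    rw [Finset.mul_sum]
    refine Finset.sum_congr rfl fun i _ => ?_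
    rw [Pi.smul_apply, Pi.smul_apply, smul_eq_mul]; ring
  rw [h]
  ring

lemma EC_smul {u : Pt D → Fin D → ℝ} (hu : IsTest u) (c : ℝ) :
    EC (c • u) = c ^ 2 * EC u := by
  unfold EC
  rw [← integral_const_mul]
  congr 1
  funext p
  have h1 : ∀ e i, pd (c • u) e i p = c * pd u e i p := by
    intro e i
    unfold pd
    rw [fderiv_const_smul (hu.smooth.differentiable (by simp) p)]
    rfl
  unfold dC
  rw [mul_add, Finset.mul_sum, Finset.mul_sum]
  congr 1
  · refine Finset.sum_congr rfl fun i _ => ?_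
    rw [h1]; ring
  · refine Finset.sum_congr rfl fun i _ => ?_
    rw [Finset.mul_sum]
    refine Finset.sum_congr rfl fun j _ => ?_
    rw [h1, h1]
    split_ifs
    · ring
    · rw [mul_zero]

/-- the scaling trick -/
lemma scale_QC {f u : Pt D → Fin D → ℝ} (hf : Continuous f) (hfs : HasCompactSupport f)
    (hu : IsTest u) {s : ℝ} (hs : 0 < s) : JC f u - s * EC u ≤ (1 / s) * QC f := by
  have h1 := le_QC hf hfs (hu.smul s)
  rw [JC_smul, EC_smul hu] at h1
  have h2 : JC f u - s * EC u = (1 / s) * (s * JC f u - s ^ 2 * EC u) := by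
    field_simp
  rw [h2]
  exact mul_le_mul_of_nonneg_left h1 (by positivity)

end

end Pool.Agent.N990.C
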