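import Mathlib

/-!
# Piecewise constant functions on the lattice of mesh `1 / L`
-/

set_option autoImplicit false
set_option linter.unusedSectionVars false

open MeasureTheory Set
open scoped Classical

namespace Pool.Agent.N990.C

noncomputable section

/-- points of the continuum: horizontal coordinates and height -/
abbrev Pt (D : ℕ) := (Fin D → ℝ) × ℝ

/-- points of the lattice -/
abbrev LPt (D : ℕ) := (Fin D → ℤ) × ℤ

variable {D : ℕ}

/-- the lattice point below `L p` -/
def flo (L : ℕ) (p : Pt D) : LPt D := (fun j => ⌊(L : ℝ) * p.1 j⌋, ⌊(L : ℝ) * p.2⌋)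

/-- the point of the lattice of mesh `1 / L` -/
def emb (L : ℕ) (z : LPt D) : Pt D := (fun j => (z.1 j : ℝ) / L, (z.2 : ℝ) / L)

lemma flo_meas (L : ℕ) : Measurable (flo L : Pt D → LPt D) := by
  refine Measurable.prodMk ?_ ?_
  · refine measurable_pi_lambda _ fun j => ?_
    exact Int.measurable_floor.comp (((measurable_pi_apply j).comp measurable_fst).const_mul _)
  · exact Int.measurable_floor.comp (measurable_snd.const_mul _)

lemma floor_iff {L : ℕ} (hL : 1 ≤ L) {t : ℝ} {n : ℤ} :
    ⌊(L : ℝ) * t⌋ = n ↔ t ∈ Ico ((n : ℝ) / L) (((n : ℝ) + 1) / L) := by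
  have h0 : (0 : ℝ) < L := by exact_mod_cast hL
  rw [Int.floor_eq_iff, mem_Ico, div_le_iff₀ h0, lt_div_iff₀ h0, mul_comm t]

lemma cell_eq {L : ℕ} (hL : 1 ≤ L) (z : LPt D) : (flo L : Pt D → LPt D) ⁻¹' {z} =
    (Set.pi univ fun j => Ico ((z.1 j : ℝ) / L) (((z.1 j : ℝ) + 1) / L)) ×ˢ
      Ico ((z.2 : ℝ) / L) (((z.2 : ℝ) + 1) / L) := by
  ext p
  rw [mem_preimage, mem_singleton_iff, Set.mem_prod, Set.mem_univ_pi]
  unfold flo
  rw [Prod.ext_iff, ← floor_iff hL, funext_iff]
  simp only [floor_iff hL]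

lemma vol_cell {L : ℕ} (hL : 1 ≤ L) (z : LPt D) :
    volume ((flo L : Pt D → LPt D) ⁻¹' {z}) = ENNReal.ofReal ((1 / (L : ℝ)) ^ (D + 1)) := by
  have h0 : (0 : ℝ) < L := by exact_mod_cast hL
  have e : ∀ n : ℤ, ((n : ℝ) + 1) / L - (n : ℝ) / L = 1 / L := fun n => by ring
  rw [cell_eq hL, Measure.volume_eq_prod, Measure.prod_prod, Real.volume_Ico, e]
  rw [Real.volume_pi_Ico]
  simp only [e]
  rw [Finset.prod_const, Finset.card_univ, Fintype.card_fin, pow_succ,
    ENNReal.ofReal_mul (by positivity), ENNReal.ofReal_pow (by positivity)]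

lemma volr_cell {L : ℕ} (hL : 1 ≤ L) (z : LPt D) :
    (volume ((flo L : Pt D → LPt D) ⁻¹' {z})).toReal = (1 / (L : ℝ)) ^ (D + 1) := by
  rw [vol_cell hL, ENNReal.toReal_ofReal (by positivity)]

/-- the integral of a piecewise constant function is a lattice sum -/
theorem int_flo {L : ℕ} (hL : 1 ≤ L) (A : Finset (Fin D → ℤ)) (G : LPt D → ℝ)
    (hG : ∀ z, G z ≠ 0 → z.1 ∈ A ∧ 1 ≤ z.2 ∧ z.2 ≤ L) :
    ∫ p : Pt D, G (flo L p) =
      (1 / (L : ℝ)) ^ (D + 1) * ∑ x ∈ A, ∑ s : Fin L, G (x, ((s : ℕ) : ℤ) + 1) := by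
  have h1 : ∀ p : Pt D, G (flo L p) = ∑ x ∈ A, ∑ s : Fin L,
      ((flo L : Pt D → LPt D) ⁻¹' {(x, ((s : ℕ) : ℤ) + 1)}).indicator
        (fun _ => G (x, ((s : ℕ) : ℤ) + 1)) p := by
    intro p
    obtain ⟨z, hz⟩ : ∃ z, z = flo L p := ⟨_, rfl⟩
    rw [← hz]
    have h2 : ∀ w : LPt D, ((flo L : Pt D → LPt D) ⁻¹' {w}).indicator (fun _ => G w) p =
        if z = w then G w else 0 := by
      intro w
      rw [indicator_apply]
      simp only [mem_preimage, mem_singleton_iff, ← hz]
    simp only [h2]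
    by_cases hzz : z.1 ∈ A ∧ 1 ≤ z.2 ∧ z.2 ≤ L
    · obtain ⟨a1, a2, a3⟩ := hzz
      rw [Finset.sum_eq_single z.1]
      · rw [Finset.sum_eq_single (⟨(z.2 - 1).toNat, by omega⟩ : Fin L)]
        · have : z = (z.1, (((z.2 - 1).toNat : ℕ) : ℤ) + 1) := by
            ext
            · rfl
            · simp only
              omega
          simp only
          rw [if_pos this, ← this]
        · intro s _ hs
          rw [if_neg]
          intro h
          apply hs
          have h3 := congrArg Prod.snd h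
          simp only at h3
          ext
          simp only
          omega
        · intro h; exact absurd (Finset.mem_univ _) h
      · intro x _ hx
        refine Finset.sum_eq_zero fun s _ => ?_
        rw [if_neg]
        intro h
        exact hx (congrArg Prod.fst h).symm
      · intro h; exact absurd a1 h
    · have h0 : G z = 0 := by
        by_contra h
        exact hzz (hG z h)
      rw [h0]
      symm
      refine Finset.sum_eq_zero fun x _ => Finset.sum_eq_zero fun s _ => ?_
      split_ifs with h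
      · rw [← h, h0]
      · rfl
  have hint : ∀ w : LPt D, Integrable (((flo L : Pt D → LPt D) ⁻¹' {w}).indicator
      (fun _ => G w)) volume := by
    intro w
    rw [integrable_indicator_iff (flo_meas L (MeasurableSet.singleton w))]
    refine integrableOn_const ?_
    rw [vol_cell hL]
    exact ENNReal.ofReal_ne_top
  simp only [h1]
  rw [integral_finsetSum _ fun x _ => integrable_finsetSum _ fun s _ => hint _,
    Finset.mul_sum]
  refine Finset.sum_congr rfl fun x _ => ?_
  rw [integral_finsetSum _ fun s _ => hint _, Finset.mul_sum]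
  refine Finset.sum_congr rfl fun s _ => ?_
  rw [integral_indicator_const _ (flo_meas L (MeasurableSet.singleton _)), smul_eq_mul,
    Measure.real, volr_cell hL]

/-- bounded measurable functions with bounded support are integrable -/
lemma integrable_bdd {E : Type*} [NormedAddCommGroup E] [MeasurableSpace E] [ProperSpace E]
    [OpensMeasurableSpace E] {μ : Measure E} [IsFiniteMeasureOnCompacts μ] {f : E → ℝ}
    (hm : Measurable f) {M R : ℝ} (hb : ∀ p, |f p| ≤ M) (hs : ∀ p, f p ≠ 0 → ‖p‖ ≤ R) :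
    Integrable f μ := by
  have h1 : f = (Metric.closedBall (0 : E) R).indicator f := by
    funext p
    rw [indicator_apply]
    split_ifs with h
    · rfl
    · by_contra h2
      exact h (mem_closedBall_zero_iff.2 (hs p h2))
  rw [h1, integrable_indicator_iff Metric.isClosed_closedBall.measurableSet]
  refine Measure.integrableOn_of_bounded (M := M) ?_ hm.aestronglyMeasurable ?_
  · exact (isCompact_closedBall 0 R).measure_lt_top.ne
  · exact Filter.Eventually.of_forall fun p => by rw [Real.norm_eq_abs]; exact hb p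

lemma flo_add (L : ℕ) (hL : 1 ≤ L) (p : Pt D) (z : LPt D) : flo L (p + emb L z) = flo L p + z := by
  have h0 : (L : ℝ) ≠ 0 := by
    have : (0 : ℝ) < L := by exact_mod_cast hL
    exact this.ne'
  unfold flo emb
  ext j
  · simp only [Prod.fst_add, Pi.add_apply]
    rw [mul_add, mul_div_cancel₀ _ h0, Int.floor_add_intCast]
  · simp only [Prod.snd_add]
    rw [mul_add, mul_div_cancel₀ _ h0, Int.floor_add_intCast]

lemma emb_flo_dist {L : ℕ} (hL : 1 ≤ L) (p : Pt D) : ‖emb L (flo L p) - p‖ ≤ 1 / L := by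
  have h0 : (0 : ℝ) < L := by exact_mod_cast hL
  have key : ∀ t : ℝ, |(⌊(L : ℝ) * t⌋ : ℝ) / L - t| ≤ 1 / L := by
    intro t
    have h1 := Int.floor_le ((L : ℝ) * t)
    have h2 := Int.lt_floor_add_one ((L : ℝ) * t)
    rw [abs_le]
    constructor
    · have h3 : t ≤ (⌊(L : ℝ) * t⌋ : ℝ) / L + 1 / L := by
        rw [← add_div, le_div_iff₀ h0]; linarith
      linarith
    · rw [sub_le_iff_le_add]
      have : (⌊(L : ℝ) * t⌋ : ℝ) / L ≤ t := by rw [div_le_iff₀ h0]; linarith
      have h3 : 0 ≤ 1 / (L : ℝ) := by positivity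
      linarith
  rw [Prod.norm_def]
  refine max_le ?_ ?_
  · refine (pi_norm_le_iff_of_nonneg (by positivity)).2 fun j => ?_
    exact key (p.1 j)
  · exact key p.2

end

end Pool.Agent.N990.C
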