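import Pool.Agent.N990.C.Def
import Pool.Agent.N109.SlabU.Basic

/-!
# Coercivity, and the functional is bounded
-/

set_option autoImplicit false
set_option linter.unusedSectionVars false

open MeasureTheory Set Filter Topology
open scoped Classical

namespace Pool.Agent.N990.C

open Pool.Agent.N990

noncomputable section

variable {D L : ℕ}

/-- supported in a finite set -/
def Sup (A : Finset (Site D)) (v : Site D → Lab D L → ℝ) : Prop := ∀ x ∉ A, v x = 0

lemma bx_coer (v : Site D → Lab D L → ℝ) (x : Site D) :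
    lam0 L * ∑ a, v x a ^ 2 ≤ bx v v x := by
  have h1 := vc (D := D) (L := L) (fun a => v x a)
  simp only [Real.norm_eq_abs, sq_abs] at h1
  have h2 : ∑ a, (v x a - low (v x) a) ^ 2 = ∑ a, dv v x a • dv v x a := by
    refine Finset.sum_congr rfl fun a _ => ?_
    unfold dv
    rw [smul_eq_mul, ← pow_two]
  unfold bx
  have h3 : 0 ≤ ∑ p ∈ plabs D L, dp v x p • dp v x p :=
    Finset.sum_nonneg fun p _ => by rw [smul_eq_mul]; exact mul_self_nonneg _
  rw [← h2]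
  have h4 : ∑ a, (v x a - low (v x) a) ^ 2 = ∑ a, (v x a - low (fun a => v x a) a) ^ 2 := rfl
  rw [h4]
  linarith

theorem EL_coer (hL : 1 ≤ L) {A : Finset (Site D)} {v : Site D → Lab D L → ℝ}
    (hv : Sup A v) : 4 / 9 * NL v ≤ EL v := by
  have h0 : (0 : ℝ) < L := by exact_mod_cast hL
  rw [EL_eq hL hv (subset_refl _), NL_eq hL hv]
  have h1 : ∑ x ∈ A, ∑ a, v x a ^ 2 ≤ ∑ x ∈ Ns A, ∑ a, v x a ^ 2 := by
    refine Finset.sum_le_sum_of_subset_of_nonneg ?_ ?_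
    · intro x hx; exact mem_Ns.2 (Or.inl hx)
    · intro x _ _; exact Finset.sum_nonneg fun a _ => by positivity
  have h2 : lam0 L * ∑ x ∈ Ns A, ∑ a, v x a ^ 2 ≤ ∑ x ∈ Ns A, bx v v x := by
    rw [Finset.mul_sum]
    exact Finset.sum_le_sum fun x _ => bx_coer v x
  have h3 := N109.SlabU.lam0_ge hL
  have h5 : 0 ≤ ∑ x ∈ A, ∑ a, v x a ^ 2 :=
    Finset.sum_nonneg fun x _ => Finset.sum_nonneg fun a _ => by positivity
  have h4 : 4 / 9 * ∑ x ∈ A, ∑ a, v x a ^ 2 ≤ (L : ℝ) ^ 2 * ∑ x ∈ Ns A, bx v v x := by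
    calc 4 / 9 * ∑ x ∈ A, ∑ a, v x a ^ 2
        = (L : ℝ) ^ 2 * (4 / (9 * (L : ℝ) ^ 2) * ∑ x ∈ A, ∑ a, v x a ^ 2) := by field_simp
      _ ≤ (L : ℝ) ^ 2 * (lam0 L * ∑ x ∈ Ns A, ∑ a, v x a ^ 2) := by
          refine mul_le_mul_of_nonneg_left ?_ (by positivity)
          exact mul_le_mul h3 h1 h5 (lam0_pos hL).le
      _ ≤ _ := mul_le_mul_of_nonneg_left h2 (by positivity)
  have h6 : (0 : ℝ) ≤ (1 / (L : ℝ)) ^ (D + 1) := by positivity
  have := mul_le_mul_of_nonneg_left h4 h6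
  linarith

lemma flo_bd {A : Finset (Site D)} (hL : 1 ≤ L) : ∃ R : ℝ, 0 ≤ R ∧ ∀ p : Pt D,
    (flo L p).1 ∈ A → 1 ≤ (flo L p).2 → (flo L p).2 ≤ L → ‖p‖ ≤ R := by
  have h0 : (0 : ℝ) < L := by exact_mod_cast hL
  have h1 : (1 : ℝ) ≤ L := by exact_mod_cast hL
  refine ⟨(∑ x ∈ A, ∑ j, |(x j : ℝ)|) + 1 + 1, by positivity, fun p h2 h3 h4 => ?_⟩
  have h5 := emb_flo_dist hL p
  have h6 : ‖emb L (flo L p)‖ ≤ (∑ x ∈ A, ∑ j, |(x j : ℝ)|) + 1 := by
    unfold emb
    rw [Prod.norm_def]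
    refine max_le ?_ ?_
    · refine (pi_norm_le_iff_of_nonneg (by positivity)).2 fun j => ?_
      simp only
      rw [Real.norm_eq_abs, abs_div, Nat.abs_cast]
      calc |((flo L p).1 j : ℝ)| / L ≤ |((flo L p).1 j : ℝ)| := div_le_self (abs_nonneg _) h1
        _ ≤ ∑ j, |((flo L p).1 j : ℝ)| :=
            Finset.single_le_sum (f := fun j => |((flo L p).1 j : ℝ)|)
              (fun _ _ => abs_nonneg _) (Finset.mem_univ j)
        _ ≤ ∑ x ∈ A, ∑ j, |(x j : ℝ)| :=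
            Finset.single_le_sum (f := fun x : Site D => ∑ j, |(x j : ℝ)|)
              (fun _ _ => Finset.sum_nonneg fun _ _ => abs_nonneg _) h2
        _ ≤ _ := by linarith
    · simp only
      rw [Real.norm_eq_abs, abs_div, Nat.abs_cast]
      have h7 : |((flo L p).2 : ℝ)| ≤ L := by
        rw [abs_le]
        constructor
        · have : (1 : ℝ) ≤ (flo L p).2 := by exact_mod_cast h3
          linarith
        · exact_mod_cast h4
      have h8 : |((flo L p).2 : ℝ)| / L ≤ 1 := by rw [div_le_one h0]; exact h7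
      have h9 : (0 : ℝ) ≤ ∑ x ∈ A, ∑ j, |(x j : ℝ)| :=
        Finset.sum_nonneg fun _ _ => Finset.sum_nonneg fun _ _ => abs_nonneg _
      linarith
  have h7 : (1 : ℝ) / L ≤ 1 := by rw [div_le_one h0]; exact h1
  have h8 : p = emb L (flo L p) - (emb L (flo L p) - p) := by abel
  calc ‖p‖ = ‖emb L (flo L p) - (emb L (flo L p) - p)‖ := by rw [← h8]
    _ ≤ ‖emb L (flo L p)‖ + ‖emb L (flo L p) - p‖ := norm_sub_le _ _
    _ ≤ _ := by linarith

/-- functions of the cell -/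
lemma Bs_flo (hL : 1 ≤ L) {A : Finset (Site D)} {G : LPt D → ℝ}
    (hG : ∀ z, G z ≠ 0 → z.1 ∈ A ∧ 1 ≤ z.2 ∧ z.2 ≤ L) : Bs fun p : Pt D => G (flo L p) := by
  obtain ⟨R, hR0, hR⟩ := flo_bd (A := A) hL
  refine ⟨(measurable_of_countable G).comp (flo_meas L), ?_, R, hR0, fun p hp => ?_⟩
  · refine ⟨∑ x ∈ A, ∑ s : Fin L, |G (x, ((s : ℕ) : ℤ) + 1)|,
      Finset.sum_nonneg fun _ _ => Finset.sum_nonneg fun _ _ => abs_nonneg _, fun p => ?_⟩
    by_cases h : G (flo L p) = 0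
    · rw [h, abs_zero]
      exact Finset.sum_nonneg fun _ _ => Finset.sum_nonneg fun _ _ => abs_nonneg _
    · obtain ⟨h1, h2, h3⟩ := hG _ h
      have e : flo L p = ((flo L p).1, (((⟨((flo L p).2 - 1).toNat, by omega⟩ : Fin L) : ℕ) : ℤ) + 1) := by
        ext
        · rfl
        · simp only
          omega
      calc |G (flo L p)| = |G ((flo L p).1, (((⟨((flo L p).2 - 1).toNat, by omega⟩ : Fin L) : ℕ) : ℤ) + 1)| := by
            rw [← e]
        _ ≤ ∑ s : Fin L, |G ((flo L p).1, ((s : ℕ) : ℤ) + 1)| :=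
            Finset.single_le_sum (f := fun s : Fin L => |G ((flo L p).1, ((s : ℕ) : ℤ) + 1)|)
              (fun _ _ => abs_nonneg _) (Finset.mem_univ _)
        _ ≤ _ := Finset.single_le_sum (f := fun x : Site D => ∑ s : Fin L, |G (x, ((s : ℕ) : ℤ) + 1)|)
              (fun _ _ => Finset.sum_nonneg fun _ _ => abs_nonneg _) h1
  · obtain ⟨h1, h2, h3⟩ := hG _ hp
    exact hR p h1 h2 h3

lemma Bs_ext (hL : 1 ≤ L) {A : Finset (Site D)} {v : Site D → Lab D L → ℝ} (hv : Sup A v)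
    (i : Fin D) : Bs fun p : Pt D => ext v i (flo L p) := by
  refine Bs_flo hL (A := A) (G := ext v i) fun z hz => ⟨?_, ?_⟩
  · by_contra h
    exact hz (ext_zero hv h)
  · by_contra h
    exact hz (ext_out h)

end

end Pool.Agent.N990.C
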