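import Pool.Agent.N990.C.Mol

/-!
# The energy of the mollified field
-/

set_option autoImplicit false
set_option linter.unusedSectionVars false

open MeasureTheory Set Filter Topology
open scoped Classical

namespace Pool.Agent.N990.C

open Pool.Agent.N990

noncomputable section

variable {D L : ℕ}

lemma Slb_meas : MeasurableSet (Slb D) :=
  (measurableSet_le measurable_const measurable_snd).inter
    (measurableSet_le measurable_snd measurable_const)

/-- the energy of one component on the lattice -/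
def Sb (L : ℕ) (h : LPt D → ℝ) : ℝ := ∫ p : Pt D, if inS L (flo L p) then h (flo L p) ^ 2 else 0

lemma Bs_ind {h : LPt D → ℝ} (hh : Bs fun p : Pt D => h (flo L p)) :
    Bs fun p : Pt D => if inS L (flo L p) then h (flo L p) ^ 2 else 0 := by
  have h1 := hh.sq.mul_bdd (g := fun p : Pt D => if inS L (flo L p) then (1 : ℝ) else 0)
    ((measurable_of_countable (fun z => if inS L z then (1 : ℝ) else 0)).comp (flo_meas L))
    ⟨1, fun p => by split_ifs <;> simp⟩
  have e : (fun p : Pt D => if inS L (flo L p) then h (flo L p) ^ 2 else 0) =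
      fun p : Pt D => h (flo L p) ^ 2 * if inS L (flo L p) then (1 : ℝ) else 0 := by
    funext p
    split_ifs <;> simp
  rw [e]
  exact h1

lemma Sb_ge {h : LPt D → ℝ} (hh : Bs fun p : Pt D => h (flo L p)) (h0 : ∀ z, z.2 ≤ 0 → h z = 0)
    {t : Pt D} (ht : 0 ≤ t.2) : ∫ p in Slb D, h (flo L (p - t)) ^ 2 ≤ Sb L h := by
  have e : ∫ p in Slb D, h (flo L (p - t)) ^ 2 =
      ∫ p, (Slb D).indicator (fun _ => (1 : ℝ)) (p + t) * h (flo L p) ^ 2 := by
    rw [← integral_indicator Slb_meas,
      ← integral_add_right_eq_self (μ := (volume : Measure (Pt D))) _ t]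
    congr 1
    funext p
    rw [indicator_apply, indicator_apply, add_sub_cancel_right]
    split_ifs <;> simp
  rw [e]
  unfold Sb
  refine integral_mono_of_nonneg (Eventually.of_forall fun p => ?_) (Bs_ind hh).integrable
    (Eventually.of_forall fun p => ?_)
  · simp only [Pi.zero_apply]
    rw [indicator_apply]
    split_ifs <;> positivity
  · simp only
    rw [indicator_apply]
    by_cases h1 : p + t ∈ Slb D
    · rw [if_pos h1, one_mul]
      by_cases h2 : h (flo L p) = 0
      · rw [h2]; simp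
      · rw [if_pos]
        constructor
        · by_contra h3
          exact h2 (h0 _ (by omega))
        · have h4 : p.2 + t.2 ≤ 1 := h1.2
          have h5 : p.2 ≤ 1 := by linarith
          show ⌊(L : ℝ) * p.2⌋ ≤ (L : ℤ)
          have h6 : (⌊(L : ℝ) * p.2⌋ : ℝ) ≤ L := by
            refine (Int.floor_le _).trans ?_
            have : (0 : ℝ) ≤ L := Nat.cast_nonneg _
            nlinarith
          exact_mod_cast h6
    · rw [if_neg h1, zero_mul]
      split_ifs <;> positivity

lemma flo_shift (hL : 1 ≤ L) (p : Pt D) (k : Fin D) :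
    flo L (p + (1 / (L : ℝ)) • eh k) = flo L p + zh k := by
  rw [← emb_zh, flo_add L hL]

lemma flo_shiftv (hL : 1 ≤ L) (p : Pt D) :
    flo L (p + (1 / (L : ℝ)) • (-ez D)) = flo L p - zv D := by
  have : (1 / (L : ℝ)) • (-ez D) = emb L (-zv D) := by
    have h1 : emb L (-zv D) = emb L (0 - zv D) := by rw [zero_sub]
    have h2 : emb L (0 : LPt D) = 0 := by
      unfold emb; ext <;> simp
    rw [h1, emb_sub, h2, emb_zv, smul_neg, zero_sub]
  rw [this, flo_add L hL, sub_eq_add_neg]

lemma Bs_vd (hL : 1 ≤ L) {A : Finset (Site D)} {v : Site D → Lab D L → ℝ} (hv : Sup A v)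
    (i : Fin D) : Bs fun p : Pt D => (L : ℝ) * vd v i (flo L p) := by
  have h1 := Bs_ext hL hv i
  have h2 := (h1.sub (h1.trans ((1 / (L : ℝ)) • (-ez D)))).const_mul L
  simp only [flo_shiftv hL] at h2
  exact h2

lemma Bs_hd (hL : 1 ≤ L) {A : Finset (Site D)} {v : Site D → Lab D L → ℝ} (hv : Sup A v)
    (i j : Fin D) : Bs fun p : Pt D => (L : ℝ) * hd v i j (flo L p) := by
  have h1 := Bs_ext hL hv
  have h2 := (((h1 j).trans ((1 / (L : ℝ)) • eh i)).sub (h1 j)).sub
    (((h1 i).trans ((1 / (L : ℝ)) • eh j)).sub (h1 i))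
  have h3 := h2.const_mul L
  simp only [flo_shift hL] at h3
  exact h3

lemma vd_low {v : Site D → Lab D L → ℝ} {i : Fin D} {z : LPt D} (hz : z.2 ≤ 0) :
    (L : ℝ) * vd v i z = 0 := by
  unfold vd
  have e : (z - zv D).2 = z.2 - 1 := by unfold zv; simp
  rw [ext_out (by omega), ext_out (by rw [e]; omega)]; simp

lemma hd_low {v : Site D → Lab D L → ℝ} {i j : Fin D} {z : LPt D} (hz : z.2 ≤ 0) :
    (L : ℝ) * hd v i j z = 0 := by
  unfold hd
  have e : ∀ k, (z + zh k).2 = z.2 := by intro k; unfold zh; simp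
  have e0 : ∀ k, ext v k z = 0 := fun k => ext_out (by omega)
  have e1 : ∀ k l, ext v k (z + zh l) = 0 := fun k l => ext_out (by rw [e]; omega)
  rw [e0, e0, e1, e1]; simp

theorem EL_split (hL : 1 ≤ L) {A : Finset (Site D)} {v : Site D → Lab D L → ℝ}
    (hv : Sup A v) : EL v = ∑ i, Sb L (fun z => (L : ℝ) * vd v i z) +
      ∑ i, ∑ j, if i < j then Sb L (fun z => (L : ℝ) * hd v i j z) else 0 := by
  unfold EL Sb
  have h1 : ∀ i, Integrable (fun p : Pt D =>
      if inS L (flo L p) then ((L : ℝ) * vd v i (flo L p)) ^ 2 else 0) volume := fun i =>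
    (Bs_ind (h := fun z => (L : ℝ) * vd v i z) (Bs_vd hL hv i)).integrable
  have h2 : ∀ i j, Integrable (fun p : Pt D =>
      if inS L (flo L p) then ((L : ℝ) * hd v i j (flo L p)) ^ 2 else 0) volume := fun i j =>
    (Bs_ind (h := fun z => (L : ℝ) * hd v i j z) (Bs_hd hL hv i j)).integrable
  have h3 : ∀ i j, Integrable (fun p : Pt D => if i < j then
      (if inS L (flo L p) then ((L : ℝ) * hd v i j (flo L p)) ^ 2 else 0) else 0) volume := by
    intro i j
    split_ifs
    · exact h2 i j
    · exact integrable_zero _ _ _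
  have e1 : ∀ p : Pt D, (if inS L (flo L p) then dL v (flo L p) else 0) =
      ∑ i, (if inS L (flo L p) then ((L : ℝ) * vd v i (flo L p)) ^ 2 else 0) +
      ∑ i, ∑ j, if i < j then
        (if inS L (flo L p) then ((L : ℝ) * hd v i j (flo L p)) ^ 2 else 0) else 0 := by
    intro p
    unfold dL
    split_ifs <;> simp
  simp only [e1]
  rw [integral_add (integrable_finsetSum _ fun i _ => h1 i)
    (integrable_finsetSum _ fun i _ => integrable_finsetSum _ fun j _ => h3 i j),
    integral_finsetSum _ fun i _ => h1 i,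
    integral_finsetSum _ fun i _ => integrable_finsetSum _ fun j _ => h3 i j]
  congr 1
  refine Finset.sum_congr rfl fun i _ => ?_
  rw [integral_finsetSum _ fun j _ => h3 i j]
  refine Finset.sum_congr rfl fun j _ => ?_
  split_ifs
  · rfl
  · simp

/-- the error kernel -/
def kap (L : ℕ) (k : Pt D → ℝ) (w t : Pt D) : ℝ :=
  fderiv ℝ k t w - (L : ℝ) * (k (t + (1 / (L : ℝ)) • w) - k t)

lemma fd_bs {k : Pt D → ℝ} {δ : ℝ} (hδ : 0 < δ) (hk : IsKer k δ) (w : Pt D) :
    Bs fun t => fderiv ℝ k t w := by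
  have hc : Continuous fun t => fderiv ℝ k t w :=
    (hk.smooth.continuous_fderiv one_ne_zero).clm_apply continuous_const
  have hs : HasCompactSupport fun t => fderiv ℝ k t w := hk.comp.fderiv_apply ℝ w
  obtain ⟨C, hC⟩ := hs.exists_bound_of_continuous hc
  refine ⟨hc.measurable, ⟨C, (norm_nonneg _).trans (hC 0), hC⟩, 3 * δ, by positivity,
    fun t ht => ?_⟩
  have h1 : t ∈ tsupport k := by
    have h2 : t ∈ Function.support (fderiv ℝ k) := by
      intro h3
      exact ht (by simp only [h3]; rfl)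
    exact support_fderiv_subset ℝ h2
  have h4 : tsupport k ⊆ Metric.closedBall 0 (3 * δ) := by
    refine closure_minimal (fun s hs => ?_) Metric.isClosed_closedBall
    rw [mem_closedBall_zero_iff]
    exact (hk.supp s hs).2
  have h5 := h4 h1
  rwa [mem_closedBall_zero_iff] at h5

lemma kap_bs {k : Pt D → ℝ} {δ : ℝ} (hδ : 0 < δ) (hk : IsKer k δ) (w : Pt D) :
    Bs (kap L k w) := by
  have h1 := hk.bs hδ
  exact (fd_bs hδ hk w).sub (((h1.trans ((1 / (L : ℝ)) • w)).sub h1).const_mul L)

lemma kap_int (hL : 1 ≤ L) {k : Pt D → ℝ} {δ : ℝ} (hδ1 : δ ≤ 1) (hk : IsKer k δ)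
    {w : Pt D} (hw : ‖w‖ ≤ 1) {ε : ℝ}
    (hb : ∀ t, |(L : ℝ) * (k (t + (1 / (L : ℝ)) • w) - k t) - fderiv ℝ k t w| ≤ ε) :
    ∫ t, |kap L k w t| ≤ ε * volume.real (Metric.closedBall (0 : Pt D) 4) := by
  have h0 : (0 : ℝ) < L := by exact_mod_cast hL
  have hL1 : (1 : ℝ) ≤ L := by exact_mod_cast hL
  have hwn : ‖(1 / (L : ℝ)) • w‖ ≤ 1 := by
    rw [norm_smul, Real.norm_eq_abs, abs_of_nonneg (by positivity)]
    have : 1 / (L : ℝ) ≤ 1 := by rw [div_le_one h0]; exact hL1
    exact mul_le_one₀ this (norm_nonneg _) hw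
  have h1 : ∀ t, |kap L k w t| ≤ (Metric.closedBall (0 : Pt D) 4).indicator (fun _ => ε) t := by
    intro t
    by_cases ht : t ∈ Metric.closedBall (0 : Pt D) 4
    · rw [indicator_of_mem ht]
      unfold kap
      rw [abs_sub_comm]
      exact hb t
    · rw [indicator_of_notMem ht]
      rw [mem_closedBall_zero_iff, not_le] at ht
      have z1 : k t = 0 := by
        by_contra h; have := (hk.supp t h).2; linarith
      have z2 : k (t + (1 / (L : ℝ)) • w) = 0 := by
        by_contra h
        have h3 := (hk.supp _ h).2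
        have h4 : t = (t + (1 / (L : ℝ)) • w) - (1 / (L : ℝ)) • w := by abel
        have h5 : ‖t‖ ≤ ‖t + (1 / (L : ℝ)) • w‖ + ‖(1 / (L : ℝ)) • w‖ := by
          calc ‖t‖ = ‖(t + (1 / (L : ℝ)) • w) - (1 / (L : ℝ)) • w‖ := by rw [← h4]
            _ ≤ _ := norm_sub_le _ _
        linarith
      have z3 : fderiv ℝ k t w = 0 := by
        by_contra h
        have h6 : t ∈ tsupport k := by
          have h2 : t ∈ Function.support (fderiv ℝ k) := by
            intro h3
            exact h (by simp only [h3]; rfl)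
          exact support_fderiv_subset ℝ h2
        have h4 : tsupport k ⊆ Metric.closedBall 0 (3 * δ) := by
          refine closure_minimal (fun s hs => ?_) Metric.isClosed_closedBall
          rw [mem_closedBall_zero_iff]
          exact (hk.supp s hs).2
        have h5 := h4 h6
        rw [mem_closedBall_zero_iff] at h5
        linarith
      unfold kap
      rw [z1, z2, z3]; simp
  calc ∫ t, |kap L k w t| ≤ ∫ t, (Metric.closedBall (0 : Pt D) 4).indicator (fun _ => ε) t :=
        integral_mono_of_nonneg (Eventually.of_forall fun _ => abs_nonneg _) (ball_int _ _)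
          (Eventually.of_forall h1)
    _ = _ := by
        rw [integral_indicator_const _ Metric.isClosed_closedBall.measurableSet, smul_eq_mul,
          mul_comm]

/-- the derivative of a mollified function -/
lemma pd_split {k : Pt D → ℝ} {δ : ℝ} (hδ : 0 < δ) (hk : IsKer k δ) {g : Pt D → ℝ} (hg : Bs g)
    (w p : Pt D) : ∫ t, fderiv ℝ k t w * g (p - t) =
      (∫ t, k t * ((L : ℝ) * (g (p - t + (1 / (L : ℝ)) • w) - g (p - t)))) +
      ∫ t, kap L k w t * g (p - t) := by
  have hkb := hk.bs hδ
  have i1 : Integrable (fun t => fderiv ℝ k t w * g (p - t)) volume :=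
    ((fd_bs hδ hk w).conv1 hg p).integrable
  have i2 : Integrable (fun t => k (t + (1 / (L : ℝ)) • w) * g (p - t)) volume :=
    ((hkb.trans _).conv1 hg p).integrable
  have i3 : Integrable (fun t => k t * g (p - t)) volume := (hkb.conv1 hg p).integrable
  have i4 : Integrable (fun t => k t * g (p - t + (1 / (L : ℝ)) • w)) volume := by
    have h1 := (hkb.conv1 (hg.trans ((1 / (L : ℝ)) • w)) p).integrable
      (μ := (volume : Measure (Pt D)))
    exact h1
  have e1 : ∫ t, k t * ((L : ℝ) * (g (p - t + (1 / (L : ℝ)) • w) - g (p - t))) =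
      (L : ℝ) * ((∫ t, k t * g (p - t + (1 / (L : ℝ)) • w)) - ∫ t, k t * g (p - t)) := by
    rw [← integral_sub i4 i3, ← integral_const_mul]
    congr 1
    funext t
    ring
  have e2 : ∫ t, kap L k w t * g (p - t) = (∫ t, fderiv ℝ k t w * g (p - t)) -
      (L : ℝ) * ((∫ t, k (t + (1 / (L : ℝ)) • w) * g (p - t)) - ∫ t, k t * g (p - t)) := by
    have i5 : Integrable (fun t => (L : ℝ) * (k (t + (1 / (L : ℝ)) • w) * g (p - t) -
        k t * g (p - t))) volume := (i2.sub i3).const_mul _
    rw [← integral_sub i2 i3, ← integral_const_mul, ← integral_sub i1 i5]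
    congr 1
    funext t
    unfold kap
    ring
  rw [e1, e2, conv_shift]
  ring

lemma sq_split {η b c : ℝ} (hη : 0 < η) :
    (b + c) ^ 2 ≤ (1 + η) * b ^ 2 + (1 + 1 / η) * c ^ 2 := by
  have h1 : (1 + η) * b ^ 2 + (1 + 1 / η) * c ^ 2 - (b + c) ^ 2 = (1 / η) * (η * b - c) ^ 2 := by
    field_simp
    ring
  have h2 : 0 ≤ (1 / η) * (η * b - c) ^ 2 := by positivity
  linarith

/-- the energy of a sum -/
lemma en_comp {a b c : Pt D → ℝ} (hb : Bs b) (hc : Bs c) (h : ∀ p, a p = b p + c p) {η : ℝ}
    (hη : 0 < η) : ∫ p in Slb D, a p ^ 2 ≤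
      (1 + η) * (∫ p in Slb D, b p ^ 2) + (1 + 1 / η) * ∫ p in Slb D, c p ^ 2 := by
  have i1 : IntegrableOn (fun p => b p ^ 2) (Slb D) := hb.sq.integrable.integrableOn
  have i2 : IntegrableOn (fun p => c p ^ 2) (Slb D) := hc.sq.integrable.integrableOn
  rw [← integral_const_mul, ← integral_const_mul, ← integral_add (i1.const_mul _) (i2.const_mul _)]
  refine integral_mono_of_nonneg (Eventually.of_forall fun _ => by positivity)
    ((i1.const_mul _).add (i2.const_mul _)) (Eventually.of_forall fun p => ?_)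
  simp only
  rw [h]
  exact sq_split hη

lemma main_part {k : Pt D → ℝ} {δ : ℝ} (hδ : 0 < δ) (hk : IsKer k δ) {h : LPt D → ℝ}
    (hh : Bs fun p : Pt D => h (flo L p)) (h0 : ∀ z, z.2 ≤ 0 → h z = 0) :
    ∫ p in Slb D, (∫ t, k t * h (flo L (p - t))) ^ 2 ≤ Sb L h := by
  have h1 := young (hk.bs hδ) hk.nn hh (S := Slb D) Slb_meas (X := Sb L h) fun t ht =>
    Sb_ge hh h0 (hδ.le.trans (hk.supp t ht).1)
  rw [hk.one, one_pow, one_mul] at h1
  exact h1

/-- **the energy of the mollified field** -/
theorem EC_mol (hL : 1 ≤ L) {A : Finset (Site D)} {v : Site D → Lab D L → ℝ} (hv : Sup A v)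
    {k : Pt D → ℝ} {δ : ℝ} (hδ : 0 < δ) (hδ1 : δ ≤ 1) (hk : IsKer k δ) {η ε : ℝ} (hη : 0 < η)
    (hb : ∀ t w : Pt D, ‖w‖ ≤ 1 →
      |(L : ℝ) * (k (t + (1 / (L : ℝ)) • w) - k t) - fderiv ℝ k t w| ≤ ε) :
    EC (mol k fun i p => ext v i (flo L p)) ≤ (1 + η) * EL v +
      (1 + 1 / η) * ((ε * volume.real (Metric.closedBall (0 : Pt D) 4)) ^ 2 *
        ((1 + 4 * D) * NL v)) := by
  obtain ⟨V, hV⟩ : ∃ V, V = volume.real (Metric.closedBall (0 : Pt D) 4) := ⟨_, rfl⟩
  rw [← hV]
  have hV0 : 0 ≤ V := hV ▸ measureReal_nonneg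
  have hg := Bs_ext hL hv
  obtain ⟨n, hn⟩ : ∃ n : Fin D → ℝ, n = fun i => ∫ p : Pt D, ext v i (flo L p) ^ 2 := ⟨_, rfl⟩
  have hn0 : ∀ i, 0 ≤ n i := fun i => by rw [hn]; exact integral_nonneg fun _ => by positivity
  have hNL : NL v = ∑ i, n i := by
    unfold NL
    rw [integral_finsetSum _ fun i _ => (hg i).sq.integrable, hn]
  -- error terms
  have herr : ∀ w : Pt D, ‖w‖ ≤ 1 → ∀ i, ∫ p in Slb D,
      (∫ t, kap L k w t * ext v i (flo L (p - t))) ^ 2 ≤ (ε * V) ^ 2 * n i := by
    intro w hw i
    refine (young_abs (kap_bs hδ hk w) (hg i) Slb_meas).trans ?_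
    rw [hn]
    refine mul_le_mul_of_nonneg_right ?_ (integral_nonneg fun _ => by positivity)
    refine pow_le_pow_left₀ (integral_nonneg fun _ => abs_nonneg _) ?_ 2
    rw [hV]
    exact kap_int hL hδ1 hk hw fun t => hb t w hw
  have hkb := hk.bs hδ
  -- vertical
  have hver : ∀ i, ∫ p in Slb D, pd (mol k fun i p => ext v i (flo L p)) (ez D) i p ^ 2 ≤
      (1 + η) * Sb L (fun z => (L : ℝ) * vd v i z) + (1 + 1 / η) * ((ε * V) ^ 2 * n i) := by
    intro i
    have b1 : Bs fun p : Pt D => ∫ t, k t * ((L : ℝ) * vd v i (flo L (p - t))) :=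
      hkb.conv (Bs_vd hL hv i)
    have c1 : Bs fun p : Pt D => -∫ t, kap L k (-ez D) t * ext v i (flo L (p - t)) :=
      ((kap_bs hδ hk (-ez D)).conv (hg i)).neg
    have hs : ∀ p, pd (mol k fun i p => ext v i (flo L p)) (ez D) i p =
        (∫ t, k t * ((L : ℝ) * vd v i (flo L (p - t)))) +
        -∫ t, kap L k (-ez D) t * ext v i (flo L (p - t)) := by
      intro p
      rw [pd_mol hk hg]
      have e1 := pd_split (L := L) hδ hk (hg i) (-ez D) p
      have e2 : ∫ t, fderiv ℝ k t (-ez D) * ext v i (flo L (p - t)) =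
          -∫ t, fderiv ℝ k t (ez D) * ext v i (flo L (p - t)) := by
        rw [← integral_neg]
        congr 1
        funext t
        rw [map_neg]; ring
      have e3 : ∫ t, k t * ((L : ℝ) * (ext v i (flo L (p - t + (1 / (L : ℝ)) • -ez D)) -
          ext v i (flo L (p - t)))) = -∫ t, k t * ((L : ℝ) * vd v i (flo L (p - t))) := by
        rw [← integral_neg]
        congr 1
        funext t
        unfold vd
        rw [flo_shiftv hL]; ring
      rw [e2, e3] at e1
      linarith
    refine (en_comp b1 c1 hs hη).trans ?_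
    refine add_le_add (mul_le_mul_of_nonneg_left ?_ (by positivity))
      (mul_le_mul_of_nonneg_left ?_ (by positivity))
    · exact main_part hδ hk (h := fun z => (L : ℝ) * vd v i z) (Bs_vd hL hv i) fun z hz => vd_low hz
    · simp only [neg_sq]
      exact herr _ (by rw [norm_neg]; exact norm_ez) i
  -- horizontal
  have hhor : ∀ i j, ∫ p in Slb D, (pd (mol k fun i p => ext v i (flo L p)) (eh i) j p -
      pd (mol k fun i p => ext v i (flo L p)) (eh j) i p) ^ 2 ≤
      (1 + η) * Sb L (fun z => (L : ℝ) * hd v i j z) +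
      (1 + 1 / η) * ((ε * V) ^ 2 * (2 * (n i + n j))) := by
    intro i j
    have b1 : Bs fun p : Pt D => ∫ t, k t * ((L : ℝ) * hd v i j (flo L (p - t))) :=
      hkb.conv (Bs_hd hL hv i j)
    have c1 : Bs fun p : Pt D => ∫ t, kap L k (eh i) t * ext v j (flo L (p - t)) :=
      (kap_bs hδ hk (eh i)).conv (hg j)
    have c2 : Bs fun p : Pt D => ∫ t, kap L k (eh j) t * ext v i (flo L (p - t)) :=
      (kap_bs hδ hk (eh j)).conv (hg i)
    have hs : ∀ p, pd (mol k fun i p => ext v i (flo L p)) (eh i) j p -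
        pd (mol k fun i p => ext v i (flo L p)) (eh j) i p =
        (∫ t, k t * ((L : ℝ) * hd v i j (flo L (p - t)))) +
        ((∫ t, kap L k (eh i) t * ext v j (flo L (p - t))) -
          ∫ t, kap L k (eh j) t * ext v i (flo L (p - t))) := by
      intro p
      rw [pd_mol hk hg, pd_mol hk hg]
      have e1 := pd_split (L := L) hδ hk (hg j) (eh i) p
      have e2 := pd_split (L := L) hδ hk (hg i) (eh j) p
      have q1 : Integrable (fun t => k t * ((L : ℝ) *
          (ext v j (flo L (p - t + (1 / (L : ℝ)) • eh i)) - ext v j (flo L (p - t))))) volume := by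
        have h1 := (((hg j).trans ((1 / (L : ℝ)) • eh i)).sub (hg j)).const_mul L
        exact (hkb.conv1 h1 p).integrable
      have q2 : Integrable (fun t => k t * ((L : ℝ) *
          (ext v i (flo L (p - t + (1 / (L : ℝ)) • eh j)) - ext v i (flo L (p - t))))) volume := by
        have h1 := (((hg i).trans ((1 / (L : ℝ)) • eh j)).sub (hg i)).const_mul L
        exact (hkb.conv1 h1 p).integrable
      have e3 : ∫ t, k t * ((L : ℝ) * hd v i j (flo L (p - t))) =
          (∫ t, k t * ((L : ℝ) * (ext v j (flo L (p - t + (1 / (L : ℝ)) • eh i)) -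
            ext v j (flo L (p - t))))) -
          ∫ t, k t * ((L : ℝ) * (ext v i (flo L (p - t + (1 / (L : ℝ)) • eh j)) -
            ext v i (flo L (p - t)))) := by
        rw [← integral_sub q1 q2]
        congr 1
        funext t
        unfold hd
        rw [flo_shift hL, flo_shift hL]; ring
      rw [e1, e2, e3]
      ring
    refine (en_comp b1 (c1.sub c2) hs hη).trans ?_
    refine add_le_add (mul_le_mul_of_nonneg_left ?_ (by positivity))
      (mul_le_mul_of_nonneg_left ?_ (by positivity))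
    · exact main_part hδ hk (h := fun z => (L : ℝ) * hd v i j z) (Bs_hd hL hv i j)
        fun z hz => hd_low hz
    · have i1 := (c1.sq.integrable (μ := (volume : Measure (Pt D)))).integrableOn (s := Slb D)
      have i2 := (c2.sq.integrable (μ := (volume : Measure (Pt D)))).integrableOn (s := Slb D)
      have m1 := herr _ (norm_eh i) j
      have m2 := herr _ (norm_eh j) i
      calc _ ≤ ∫ p in Slb D, (2 * (∫ t, kap L k (eh i) t * ext v j (flo L (p - t))) ^ 2 +
              2 * (∫ t, kap L k (eh j) t * ext v i (flo L (p - t))) ^ 2) := by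
            refine integral_mono_of_nonneg (Eventually.of_forall fun _ => by positivity)
              ((i1.const_mul 2).add (i2.const_mul 2)) (Eventually.of_forall fun p => ?_)
            simp only
            nlinarith [sq_nonneg ((∫ t, kap L k (eh i) t * ext v j (flo L (p - t))) +
              ∫ t, kap L k (eh j) t * ext v i (flo L (p - t)))]
        _ = 2 * (∫ p in Slb D, (∫ t, kap L k (eh i) t * ext v j (flo L (p - t))) ^ 2) +
              2 * ∫ p in Slb D, (∫ t, kap L k (eh j) t * ext v i (flo L (p - t))) ^ 2 := by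
            rw [integral_add (i1.const_mul 2) (i2.const_mul 2), integral_const_mul,
              integral_const_mul]
        _ ≤ _ := by linarith
  -- integrability
  have hpd : ∀ w i, Bs fun p : Pt D => pd (mol k fun i p => ext v i (flo L p)) w i p := by
    intro w i
    have h1 := (fd_bs hδ hk w).conv (hg i)
    simp only [pd_mol hk hg]
    exact h1
  have j1 : ∀ i, IntegrableOn (fun p : Pt D =>
      pd (mol k fun i p => ext v i (flo L p)) (ez D) i p ^ 2) (Slb D) := fun i =>
    (hpd _ _).sq.integrable.integrableOn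
  have j2 : ∀ i j, IntegrableOn (fun p : Pt D => if i < j then
      (pd (mol k fun i p => ext v i (flo L p)) (eh i) j p -
        pd (mol k fun i p => ext v i (flo L p)) (eh j) i p) ^ 2 else 0) (Slb D) := by
    intro i j
    split_ifs
    · exact ((hpd _ _).sub (hpd _ _)).sq.integrable.integrableOn
    · exact integrableOn_zero
  have e4 : EC (mol k fun i p => ext v i (flo L p)) =
      ∑ i, (∫ p in Slb D, pd (mol k fun i p => ext v i (flo L p)) (ez D) i p ^ 2) +
      ∑ i, ∑ j, if i < j then ∫ p in Slb D,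
        (pd (mol k fun i p => ext v i (flo L p)) (eh i) j p -
          pd (mol k fun i p => ext v i (flo L p)) (eh j) i p) ^ 2 else 0 := by
    unfold EC dC
    rw [integral_add (integrable_finsetSum _ fun i _ => j1 i)
      (integrable_finsetSum _ fun i _ => integrable_finsetSum _ fun j _ => j2 i j),
      integral_finsetSum _ fun i _ => j1 i,
      integral_finsetSum _ fun i _ => integrable_finsetSum _ fun j _ => j2 i j]
    congr 1
    refine Finset.sum_congr rfl fun i _ => ?_
    rw [integral_finsetSum _ fun j _ => j2 i j]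
    refine Finset.sum_congr rfl fun j _ => ?_
    split_ifs
    · rfl
    · simp
  have f1 : ∑ i, (∫ p in Slb D, pd (mol k fun i p => ext v i (flo L p)) (ez D) i p ^ 2) ≤
      (1 + η) * ∑ i, Sb L (fun z => (L : ℝ) * vd v i z) +
        (1 + 1 / η) * ((ε * V) ^ 2 * NL v) := by
    refine (Finset.sum_le_sum fun i _ => hver i).trans (le_of_eq ?_)
    rw [Finset.sum_add_distrib, ← Finset.mul_sum, ← Finset.mul_sum, ← Finset.mul_sum, hNL]
  have f2 : (∑ i, ∑ j, if i < j then ∫ p in Slb D,
        (pd (mol k fun i p => ext v i (flo L p)) (eh i) j p -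
          pd (mol k fun i p => ext v i (flo L p)) (eh j) i p) ^ 2 else 0) ≤
      (1 + η) * (∑ i, ∑ j, if i < j then Sb L (fun z => (L : ℝ) * hd v i j z) else 0) +
        (1 + 1 / η) * ((ε * V) ^ 2 * (4 * D * NL v)) := by
    have g1 : ∑ i : Fin D, ∑ j : Fin D, (2 * (n i + n j)) = 4 * D * NL v := by
      simp only [mul_add, Finset.sum_add_distrib, Finset.sum_const, Finset.card_univ,
        Fintype.card_fin, nsmul_eq_mul, ← Finset.mul_sum]
      rw [hNL]
      ring
    have g2 : (1 + η) * (∑ i, ∑ j, if i < j then Sb L (fun z => (L : ℝ) * hd v i j z) else 0) +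
        (1 + 1 / η) * ((ε * V) ^ 2 * (4 * D * NL v)) =
        ∑ i, ∑ j, ((1 + η) * (if i < j then Sb L (fun z => (L : ℝ) * hd v i j z) else 0) +
          (1 + 1 / η) * ((ε * V) ^ 2 * (2 * (n i + n j)))) := by
      simp only [Finset.sum_add_distrib, ← Finset.mul_sum]
      rw [← g1]
      simp only [← Finset.mul_sum, Finset.sum_add_distrib]
    rw [g2]
    refine Finset.sum_le_sum fun i _ => Finset.sum_le_sum fun j _ => ?_
    by_cases hij : i < j
    · rw [if_pos hij, if_pos hij]
      exact hhor i j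
    · rw [if_neg hij, if_neg hij, mul_zero, zero_add]
      have := hn0 i
      have := hn0 j
      positivity
  rw [e4, EL_split hL hv]
  have e5 : (1 + 1 / η) * ((ε * V) ^ 2 * ((1 + 4 * D) * NL v)) =
      (1 + 1 / η) * ((ε * V) ^ 2 * NL v) + (1 + 1 / η) * ((ε * V) ^ 2 * (4 * D * NL v)) := by
    ring
  rw [e5, mul_add]
  linarith

end

end Pool.Agent.N990.C
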