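import Pool.Agent.N990.C.Coer

/-!
# The lattice energy of a smooth field converges
-/

set_option autoImplicit false
set_option linter.unusedSectionVars false

open MeasureTheory Set Filter Topology
open scoped Classical

namespace Pool.Agent.N990.C

open Pool.Agent.N990

noncomputable section

variable {D : ℕ}

/-- the lattice field of a smooth field -/
def smp (L : ℕ) (u : Pt D → Fin D → ℝ) : Site D → Lab D L → ℝ :=
  fun x a => u (emb L (x, ((a.2 : ℕ) : ℤ) + 1)) a.1

lemma emb_add (L : ℕ) (z w : LPt D) : emb L (z + w) = emb L z + emb L w := by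
  unfold emb
  ext j
  · simp only [Prod.fst_add, Pi.add_apply, Int.cast_add]; ring
  · simp only [Prod.snd_add, Int.cast_add]; ring

lemma emb_sub (L : ℕ) (z w : LPt D) : emb L (z - w) = emb L z - emb L w := by
  unfold emb
  ext j
  · simp only [Prod.fst_sub, Pi.sub_apply, Int.cast_sub]; ring
  · simp only [Prod.snd_sub, Int.cast_sub]; ring

lemma ext_smp {L : ℕ} {u : Pt D → Fin D → ℝ} (hu : IsTest u) {z : LPt D} (h0 : 0 ≤ z.2)
    (h1 : z.2 ≤ L) (i : Fin D) : ext (smp L u) i z = u (emb L z) i := by
  unfold ext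
  by_cases h : 1 ≤ z.2
  · rw [dif_pos ⟨h, h1⟩]
    unfold smp
    simp only
    have e : ((z.1, (((z.2 - 1).toNat : ℕ) : ℤ) + 1) : LPt D) = z := by
      ext
      · rfl
      · simp only
        omega
    rw [e]
  · rw [dif_neg (fun h' => h h'.1)]
    have h2 : z.2 = 0 := by omega
    have h3 : emb L z = ((emb L z).1, 0) := by
      unfold emb
      rw [h2]
      simp
    rw [h3, hu.wall]
    rfl

lemma vd_smp {L : ℕ} {u : Pt D → Fin D → ℝ} (hu : IsTest u) {z : LPt D} (h : inS L z)
    (i : Fin D) : vd (smp L u) i z = u (emb L z) i - u (emb L z - (1 / (L : ℝ)) • ez D) i := by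
  unfold vd
  obtain ⟨h1, h2⟩ := h
  have e : (z - zv D).2 = z.2 - 1 := by unfold zv; simp
  rw [ext_smp hu (by omega) h2, ext_smp hu (by omega) (by omega), emb_sub, emb_zv]

lemma hd_smp {L : ℕ} {u : Pt D → Fin D → ℝ} (hu : IsTest u) {z : LPt D} (h : inS L z)
    (i j : Fin D) : hd (smp L u) i j z =
      (u (emb L z + (1 / (L : ℝ)) • eh i) j - u (emb L z) j) -
      (u (emb L z + (1 / (L : ℝ)) • eh j) i - u (emb L z) i) := by
  unfold hd
  obtain ⟨h1, h2⟩ := h
  have e : ∀ k, (z + zh k).2 = z.2 := by intro k; unfold zh; simp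
  rw [ext_smp hu (by omega) h2, ext_smp hu (by omega) h2,
    ext_smp hu (by rw [e]; omega) (by rw [e]; omega),
    ext_smp hu (by rw [e]; omega) (by rw [e]; omega), emb_add, emb_add, emb_zh, emb_zh]

lemma norm_eh (k : Fin D) : ‖(eh k : Pt D)‖ ≤ 1 := by
  unfold eh
  rw [Prod.norm_def]
  refine max_le ?_ (by simp)
  refine (pi_norm_le_iff_of_nonneg (by norm_num)).2 fun j => ?_
  simp only [Pi.single_apply]
  split_ifs <;> simp

lemma norm_ez : ‖ez D‖ ≤ 1 := by
  unfold ez
  rw [Prod.norm_def]
  refine max_le (by simp) (by simp)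

/-- the points of the lattice converge -/
lemma emb_flo_tendsto (p : Pt D) : Tendsto (fun L : ℕ => emb L (flo L p)) atTop (𝓝 p) := by
  rw [tendsto_iff_norm_sub_tendsto_zero]
  refine squeeze_zero' (Eventually.of_forall fun _ => norm_nonneg _) ?_
    tendsto_one_div_atTop_nhds_zero_nat
  filter_upwards [eventually_ge_atTop 1] with L hL
  exact emb_flo_dist hL p

/-- difference quotients of a smooth function along moving points -/
lemma quot_tendsto {f : Pt D → Fin D → ℝ} (hf : ContDiff ℝ 1 f) (p w : Pt D) (i : Fin D) :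
    Tendsto (fun L : ℕ => (L : ℝ) * (f (emb L (flo L p) + (1 / (L : ℝ)) • w) i -
      f (emb L (flo L p)) i)) atTop (𝓝 (pd f w i p)) := by
  have hs : HasStrictFDerivAt f (fderiv ℝ f p) p := hf.contDiffAt.hasStrictFDerivAt (by simp)
  have h1 : Tendsto (fun L : ℕ => (emb L (flo L p) + (1 / (L : ℝ)) • w, emb L (flo L p))) atTop
      (𝓝 (p, p)) := by
    refine Tendsto.prodMk_nhds ?_ (emb_flo_tendsto p)
    have h2 : Tendsto (fun L : ℕ => (1 / (L : ℝ)) • w) atTop (𝓝 ((0 : ℝ) • w)) :=
      tendsto_one_div_atTop_nhds_zero_nat.smul_const w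
    rw [zero_smul] at h2
    simpa using (emb_flo_tendsto p).add h2
  rw [Metric.tendsto_nhds]
  intro ε hε
  have h3 := (hs.isLittleO.def (c := ε / (2 * (‖w‖ + 1))) (by positivity))
  filter_upwards [h1.eventually h3, eventually_ge_atTop 1] with L hL hL1
  have h0 : (0 : ℝ) < L := by exact_mod_cast hL1
  simp only [add_sub_cancel_left] at hL
  have h4 := norm_le_pi_norm (f (emb L (flo L p) + (1 / (L : ℝ)) • w) - f (emb L (flo L p)) -
      (fderiv ℝ f p) ((1 / (L : ℝ)) • w)) i
  rw [dist_eq_norm]
  have h5 : (L : ℝ) * (f (emb L (flo L p) + (1 / (L : ℝ)) • w) i - f (emb L (flo L p)) i) -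
      pd f w i p = (L : ℝ) * (f (emb L (flo L p) + (1 / (L : ℝ)) • w) - f (emb L (flo L p)) -
      (fderiv ℝ f p) ((1 / (L : ℝ)) • w)) i := by
    unfold pd
    simp only [Pi.sub_apply, map_smul, Pi.smul_apply, smul_eq_mul]
    field_simp
  rw [h5, norm_mul, Real.norm_natCast]
  calc (L : ℝ) * ‖_‖ ≤ L * (ε / (2 * (‖w‖ + 1)) * ‖(1 / (L : ℝ)) • w‖) :=
        mul_le_mul_of_nonneg_left (h4.trans hL) h0.le
    _ = ε * (‖w‖ / (2 * (‖w‖ + 1))) := by
        rw [norm_smul, Real.norm_eq_abs, abs_of_nonneg (by positivity)]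
        field_simp
    _ < ε * 1 := by
        refine mul_lt_mul_of_pos_left ?_ hε
        have := norm_nonneg w
        rw [div_lt_one (by positivity)]
        linarith
    _ = ε := mul_one _

/-- almost every point is not on the boundary -/
lemma ae_int : ∀ᵐ p : Pt D, p.2 ≠ 0 ∧ p.2 ≠ 1 := by
  have h1 : ∀ a : ℝ, ∀ᵐ p : Pt D, p.2 ≠ a := by
    intro a
    have h2 : ∀ᵐ x : ℝ, x ≠ a := by
      have := (Set.countable_singleton a).ae_notMem (volume : Measure ℝ)
      simpa using this
    exact (Measure.quasiMeasurePreserving_snd (μ := (volume : Measure (Fin D → ℝ)))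
      (ν := (volume : Measure ℝ))).ae h2
  filter_upwards [h1 0, h1 1] with p h2 h3 using ⟨h2, h3⟩

lemma inS_ev {p : Pt D} (h : p.2 ≠ 0) (h' : p.2 ≠ 1) :
    ∀ᶠ L : ℕ in atTop, (inS L (flo L p) ↔ p ∈ Slb D) := by
  rcases lt_or_gt_of_ne h with h0 | h0
  · filter_upwards [eventually_ge_atTop 1] with L hL
    have hL0 : (0 : ℝ) < L := by exact_mod_cast hL
    constructor
    · intro hs
      exfalso
      have h1 : (1 : ℤ) ≤ ⌊(L : ℝ) * p.2⌋ := hs.1
      rw [Int.le_floor] at h1
      have : (L : ℝ) * p.2 < 0 := mul_neg_of_pos_of_neg hL0 h0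
      norm_num at h1
      linarith
    · intro hs
      exact absurd hs.1 (not_le.2 h0)
  · rcases lt_or_gt_of_ne h' with h1 | h1
    · obtain ⟨n, hn⟩ := exists_nat_gt (1 / p.2)
      filter_upwards [eventually_ge_atTop (max n 1)] with L hL
      have hL0 : (0 : ℝ) < L := by
        have : 1 ≤ L := (le_max_right _ _).trans hL
        exact_mod_cast this
      have hn' : (n : ℝ) ≤ L := by exact_mod_cast (le_max_left _ _).trans hL
      constructor
      · intro _; exact ⟨h0.le, h1.le⟩
      · intro _
        constructor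
        · show (1 : ℤ) ≤ ⌊(L : ℝ) * p.2⌋
          rw [Int.le_floor]
          have h2 : 1 / p.2 < L := lt_of_lt_of_le hn hn'
          rw [div_lt_iff₀ h0] at h2
          push_cast
          linarith
        · show ⌊(L : ℝ) * p.2⌋ ≤ (L : ℤ)
          have h2 : (⌊(L : ℝ) * p.2⌋ : ℝ) ≤ L := by
            refine (Int.floor_le _).trans ?_
            nlinarith
          exact_mod_cast h2
    · obtain ⟨n, hn⟩ := exists_nat_gt (1 / (p.2 - 1))
      filter_upwards [eventually_ge_atTop (max n 1)] with L hL
      have hL0 : (0 : ℝ) < L := by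
        have : 1 ≤ L := (le_max_right _ _).trans hL
        exact_mod_cast this
      have hn' : (n : ℝ) ≤ L := by exact_mod_cast (le_max_left _ _).trans hL
      constructor
      · intro hs
        exfalso
        have h2 : ⌊(L : ℝ) * p.2⌋ ≤ (L : ℤ) := hs.2
        have h3 : 1 / (p.2 - 1) < L := lt_of_lt_of_le hn hn'
        rw [div_lt_iff₀ (by linarith)] at h3
        have h4 : (L : ℝ) + 1 < L * p.2 := by linarith
        have h5 := Int.lt_floor_add_one ((L : ℝ) * p.2)
        have h6 : (⌊(L : ℝ) * p.2⌋ : ℝ) ≤ L := by exact_mod_cast h2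
        linarith
      · intro hs
        exact absurd hs.2 (not_le.2 h1)

/-- a bound for a test function -/
lemma test_bd {u : Pt D → Fin D → ℝ} (hu : IsTest u) : ∃ C R : ℝ, 0 ≤ C ∧ 0 ≤ R ∧
    (∀ p q i, |u p i - u q i| ≤ C * ‖p - q‖) ∧ (∀ p i, |u p i| ≤ C) ∧
    ∀ p, R < ‖p‖ → u p = 0 := by
  obtain ⟨K, hK⟩ := ContDiff.lipschitzWith_of_hasCompactSupport hu.supp hu.smooth (by simp)
  obtain ⟨C, hC⟩ := hu.supp.exists_bound_of_continuous hu.smooth.continuous
  obtain ⟨R, hR⟩ := hu.supp.isCompact.isBounded.subset_closedBall (0 : Pt D)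
  have hC0 : 0 ≤ C := (norm_nonneg _).trans (hC 0)
  refine ⟨max K C, max R 0, le_max_of_le_right hC0, le_max_right _ _, fun p q i => ?_,
    fun p i => ?_, fun p hp => ?_⟩
  · have h1 := hK.dist_le_mul p q
    rw [dist_eq_norm, dist_eq_norm] at h1
    have h2 := norm_le_pi_norm (u p - u q) i
    rw [Real.norm_eq_abs] at h2
    exact (h2.trans h1).trans (mul_le_mul_of_nonneg_right (le_max_left _ _) (norm_nonneg _))
  · have h2 := norm_le_pi_norm (u p) i
    rw [Real.norm_eq_abs] at h2
    exact (h2.trans (hC p)).trans (le_max_right _ _)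
  · by_contra h
    have h1 : p ∈ tsupport u := subset_tsupport _ h
    have h2 := hR h1
    rw [mem_closedBall_zero_iff] at h2
    have := le_max_left R 0
    linarith

/-- the box -/
def bxs (D r : ℕ) : Finset (Site D) := Fintype.piFinset fun _ => Finset.Icc (-(r : ℤ)) r

lemma smp_sup {L : ℕ} {u : Pt D → Fin D → ℝ} {R : ℝ}
    (hu : ∀ p, R < ‖p‖ → u p = 0) {r : ℕ} (hr : R * L ≤ r) (hL : 1 ≤ L) :
    Sup (bxs D r) (smp L u) := by
  have h0 : (0 : ℝ) < L := by exact_mod_cast hL
  intro x hx
  funext a
  unfold smp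
  rw [hu]
  · rfl
  · rw [bxs, Fintype.mem_piFinset] at hx
    push Not at hx
    obtain ⟨j, hj⟩ := hx
    rw [Finset.mem_Icc, not_and_or] at hj
    have h1 : (r : ℝ) < |(x j : ℝ)| := by
      rw [lt_abs]
      rcases hj with h | h
      · right
        have : x j < -(r : ℤ) := by omega
        have : (x j : ℝ) < -(r : ℝ) := by exact_mod_cast this
        linarith
      · left
        have : (r : ℤ) < x j := by omega
        exact_mod_cast this
    have h2 : |(x j : ℝ)| / L ≤ ‖emb L ((x, ((a.2 : ℕ) : ℤ) + 1) : LPt D)‖ := by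
      unfold emb
      rw [Prod.norm_def]
      refine le_max_of_le_left ?_
      have := norm_le_pi_norm (fun j => (x j : ℝ) / L) j
      simp only [Real.norm_eq_abs, abs_div, Nat.abs_cast] at this
      exact this
    refine lt_of_lt_of_le ?_ h2
    rw [lt_div_iff₀ h0]
    linarith

lemma ball_int (R K : ℝ) : Integrable ((Metric.closedBall (0 : Pt D) R).indicator fun _ => K) := by
  rw [integrable_indicator_iff Metric.isClosed_closedBall.measurableSet]
  exact integrableOn_const (isCompact_closedBall 0 R).measure_lt_top.ne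

/-- **the energies converge** -/
theorem EL_tendsto {u : Pt D → Fin D → ℝ} (hu : IsTest u) :
    Tendsto (fun L : ℕ => EL (smp L u)) atTop (𝓝 (EC u)) := by
  obtain ⟨C, R, hC0, hR0, hlip, -, hz⟩ := test_bd hu
  unfold EL EC
  have hS : MeasurableSet (Slb D) :=
    (measurableSet_le measurable_const measurable_snd).inter
      (measurableSet_le measurable_snd measurable_const)
  rw [← integral_indicator hS]
  refine tendsto_integral_filter_of_dominated_convergence
    ((Metric.closedBall (0 : Pt D) (R + 3)).indicator fun _ =>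
      ∑ _i : Fin D, C ^ 2 + ∑ _i : Fin D, ∑ _j : Fin D, (2 * C) ^ 2) ?_ ?_ (ball_int _ _) ?_
  · refine Eventually.of_forall fun L => ?_
    exact ((measurable_of_countable (fun z => if inS L z then dL (smp L u) z else 0)).comp
      (flo_meas L)).aestronglyMeasurable
  · filter_upwards [eventually_ge_atTop 1] with L hL
    refine Eventually.of_forall fun p => ?_
    have h0 : (0 : ℝ) < L := by exact_mod_cast hL
    have hL1 : (1 : ℝ) ≤ L := by exact_mod_cast hL
    have hw : ∀ w : Pt D, ‖w‖ ≤ 1 → ‖(1 / (L : ℝ)) • w‖ ≤ 1 / L := by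
      intro w hw
      rw [norm_smul, Real.norm_eq_abs, abs_of_nonneg (by positivity)]
      exact mul_le_of_le_one_right (by positivity) hw
    have hL' : 1 / (L : ℝ) ≤ 1 := by rw [div_le_one h0]; exact hL1
    by_cases hs : inS L (flo L p)
    · rw [if_pos hs]
      have hd1 := emb_flo_dist hL p
      obtain ⟨a, ha⟩ : ∃ a, a = emb L (flo L p) := ⟨_, rfl⟩
      rw [← ha] at hd1
      have hpa : ‖p‖ ≤ ‖a‖ + 1 := by
        have h1 : p = a - (a - p) := by abel
        calc ‖p‖ = ‖a - (a - p)‖ := by rw [← h1]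
          _ ≤ ‖a‖ + ‖a - p‖ := norm_sub_le _ _
          _ ≤ _ := by linarith
      have e1 : ∀ i, |(L : ℝ) * vd (smp L u) i (flo L p)| ≤ C := by
        intro i
        rw [vd_smp hu hs, ← ha, abs_mul, Nat.abs_cast]
        have h1 := hlip a (a - (1 / (L : ℝ)) • ez D) i
        rw [sub_sub_cancel] at h1
        have h2 := hw _ (norm_ez (D := D))
        calc (L : ℝ) * |_| ≤ L * (C * (1 / L)) :=
              mul_le_mul_of_nonneg_left (h1.trans (mul_le_mul_of_nonneg_left h2 hC0)) h0.le
          _ = C := by field_simp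
      have e3 : ∀ i j, |(L : ℝ) * (u (a + (1 / (L : ℝ)) • eh i) j - u a j)| ≤ C := by
        intro i j
        rw [abs_mul, Nat.abs_cast]
        have h1 := hlip (a + (1 / (L : ℝ)) • eh i) a j
        rw [add_sub_cancel_left] at h1
        have h2 := hw _ (norm_eh (D := D) i)
        calc (L : ℝ) * |_| ≤ L * (C * (1 / L)) :=
              mul_le_mul_of_nonneg_left (h1.trans (mul_le_mul_of_nonneg_left h2 hC0)) h0.le
          _ = C := by field_simp
      have e2 : ∀ i j, |(L : ℝ) * hd (smp L u) i j (flo L p)| ≤ 2 * C := by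
        intro i j
        rw [hd_smp hu hs, ← ha, mul_sub]
        calc _ ≤ |(L : ℝ) * (u (a + (1 / (L : ℝ)) • eh i) j - u a j)| +
              |(L : ℝ) * (u (a + (1 / (L : ℝ)) • eh j) i - u a i)| := abs_sub _ _
          _ ≤ C + C := add_le_add (e3 i j) (e3 j i)
          _ = _ := by ring
      have h5 : 0 ≤ dL (smp L u) (flo L p) := by
        unfold dL
        refine add_nonneg (Finset.sum_nonneg fun i _ => by positivity)
          (Finset.sum_nonneg fun i _ => Finset.sum_nonneg fun j _ => ?_)
        split_ifs <;> positivity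
      rw [Real.norm_eq_abs, abs_of_nonneg h5]
      by_cases hp : p ∈ Metric.closedBall (0 : Pt D) (R + 3)
      · rw [indicator_of_mem hp]
        unfold dL
        refine add_le_add (Finset.sum_le_sum fun i _ => ?_)
          (Finset.sum_le_sum fun i _ => Finset.sum_le_sum fun j _ => ?_)
        · rw [← sq_abs]
          exact pow_le_pow_left₀ (abs_nonneg _) (e1 i) 2
        · split_ifs
          · rw [← sq_abs]
            exact pow_le_pow_left₀ (abs_nonneg _) (e2 i j) 2
          · positivity
      · rw [indicator_of_notMem hp]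
        rw [mem_closedBall_zero_iff, not_le] at hp
        have hq : ∀ w : Pt D, ‖w‖ ≤ 1 → u (a + w) = 0 := by
          intro w hw'
          apply hz
          have h1 : a = (a + w) - w := by abel
          have h2 : ‖a‖ ≤ ‖a + w‖ + ‖w‖ := by
            calc ‖a‖ = ‖(a + w) - w‖ := by rw [← h1]
              _ ≤ _ := norm_sub_le _ _
          linarith
        have z0 : u a = 0 := by
          have := hq 0 (by simp)
          rwa [add_zero] at this
        have z1 : u (a - (1 / (L : ℝ)) • ez D) = 0 := by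
          rw [sub_eq_add_neg]
          exact hq _ (by rw [norm_neg]; exact (hw _ norm_ez).trans hL')
        have z2 : ∀ i, u (a + (1 / (L : ℝ)) • eh i) = 0 := fun i =>
          hq _ ((hw _ (norm_eh i)).trans hL')
        have w1 : ∀ i, vd (smp L u) i (flo L p) = 0 := by
          intro i
          rw [vd_smp hu hs, ← ha, z0, z1]; simp
        have w2 : ∀ i j, hd (smp L u) i j (flo L p) = 0 := by
          intro i j
          rw [hd_smp hu hs, ← ha, z0, z2, z2]; simp
        unfold dL
        simp only [w1, w2]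
        simp
    · rw [if_neg hs, norm_zero]
      refine indicator_nonneg (fun _ _ => ?_) _
      exact add_nonneg (Finset.sum_nonneg fun _ _ => by positivity)
        (Finset.sum_nonneg fun _ _ => Finset.sum_nonneg fun _ _ => by positivity)
  · filter_upwards [ae_int] with p hp
    by_cases hps : p ∈ Slb D
    · rw [indicator_of_mem hps]
      have h1 : Tendsto (fun L : ℕ =>
          ∑ i, (-((L : ℝ) * (u (emb L (flo L p) + (1 / (L : ℝ)) • (-ez D)) i -
            u (emb L (flo L p)) i))) ^ 2 +
          ∑ i, ∑ j, if i < j then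
            ((L : ℝ) * (u (emb L (flo L p) + (1 / (L : ℝ)) • eh i) j - u (emb L (flo L p)) j) -
             (L : ℝ) * (u (emb L (flo L p) + (1 / (L : ℝ)) • eh j) i - u (emb L (flo L p)) i)) ^ 2
            else 0) atTop (𝓝 (∑ i, (-(pd u (-ez D) i p)) ^ 2 +
              ∑ i, ∑ j, if i < j then (pd u (eh i) j p - pd u (eh j) i p) ^ 2 else 0)) := by
        refine Tendsto.add ?_ ?_
        · refine tendsto_finsetSum _ fun i _ => ?_
          exact ((quot_tendsto hu.smooth p (-ez D) i).neg).pow 2
        · refine tendsto_finsetSum _ fun i _ => tendsto_finsetSum _ fun j _ => ?_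
          split_ifs
          · exact ((quot_tendsto hu.smooth p (eh i) j).sub
              (quot_tendsto hu.smooth p (eh j) i)).pow 2
          · exact tendsto_const_nhds
      have h2 : (∑ i, (-(pd u (-ez D) i p)) ^ 2 +
              ∑ i, ∑ j, if i < j then (pd u (eh i) j p - pd u (eh j) i p) ^ 2 else 0) = dC u p := by
        unfold dC
        congr 1
        refine Finset.sum_congr rfl fun i _ => ?_
        unfold pd
        rw [map_neg, Pi.neg_apply, neg_neg]
      rw [h2] at h1
      refine h1.congr' ?_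
      filter_upwards [inS_ev hp.1 hp.2] with L hL
      rw [if_pos (hL.2 hps)]
      unfold dL
      congr 1
      · refine Finset.sum_congr rfl fun i _ => ?_
        rw [vd_smp hu (hL.2 hps), smul_neg, ← sub_eq_add_neg, ← mul_neg, neg_sub]
      · refine Finset.sum_congr rfl fun i _ => Finset.sum_congr rfl fun j _ => ?_
        split_ifs
        · rw [hd_smp hu (hL.2 hps), mul_sub (L : ℝ) (_ - _) (_ - _)]
        · rfl
    · rw [indicator_of_notMem hps]
      refine tendsto_const_nhds.congr' ?_
      filter_upwards [inS_ev hp.1 hp.2] with L hL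
      rw [if_neg (fun h => hps (hL.1 h))]

end

end Pool.Agent.N990.C
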