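import Pool.Agent.N990.C.Low2

/-!
# Mollification of the lattice field
-/

set_option autoImplicit false
set_option linter.unusedSectionVars false

open MeasureTheory Set Filter Topology
open scoped Classical Convolution

namespace Pool.Agent.N990.C

open Pool.Agent.N990

noncomputable section

variable {D : ℕ}

instance instHaar : Measure.IsAddHaarMeasure (volume : Measure (Pt D)) :=
  inferInstanceAs (Measure.IsAddHaarMeasure
    ((volume : Measure (Fin D → ℝ)).prod (volume : Measure ℝ)))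

/-- a mollifier moved upwards -/
structure IsKer (k : Pt D → ℝ) (δ : ℝ) : Prop where
  smooth : ContDiff ℝ 1 k
  comp : HasCompactSupport k
  nn : ∀ t, 0 ≤ k t
  one : ∫ t, k t = 1
  supp : ∀ t, k t ≠ 0 → δ ≤ t.2 ∧ ‖t‖ ≤ 3 * δ

lemma exists_ker {δ : ℝ} (hδ : 0 < δ) : ∃ k : Pt D → ℝ, IsKer k δ := by
  let b : ContDiffBump ((0, 2 * δ) : Pt D) :=
    { rIn := δ / 2
      rOut := δ
      rIn_pos := by positivity
      rIn_lt_rOut := by linarith }
  refine ⟨b.normed volume, b.contDiff_normed, b.hasCompactSupport_normed, b.nonneg_normed,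
    b.integral_normed, fun t ht => ?_⟩
  have h1 : t ∈ Function.support (b.normed volume) := ht
  rw [b.support_normed_eq, mem_ball_iff_norm] at h1
  have h2 : ‖t - (0, 2 * δ)‖ < δ := h1
  have h3 : |t.2 - 2 * δ| < δ := by
    have : ‖(t - ((0, 2 * δ) : Pt D)).2‖ ≤ ‖t - (0, 2 * δ)‖ := norm_snd_le _
    rw [Prod.snd_sub, Real.norm_eq_abs] at this
    exact this.trans_lt h2
  rw [abs_lt] at h3
  refine ⟨by linarith, ?_⟩
  have h4 : t = (t - (0, 2 * δ)) + (0, 2 * δ) := by abel
  have h5 : ‖((0, 2 * δ) : Pt D)‖ = 2 * δ := by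
    rw [Prod.norm_def, norm_zero, Real.norm_eq_abs, abs_of_pos (by linarith)]
    exact max_eq_right (by linarith)
  calc ‖t‖ = ‖(t - (0, 2 * δ)) + (0, 2 * δ)‖ := by rw [← h4]
    _ ≤ ‖t - (0, 2 * δ)‖ + ‖((0, 2 * δ) : Pt D)‖ := norm_add_le _ _
    _ ≤ _ := by rw [h5]; linarith

/-- difference quotients are uniformly close to derivatives -/
lemma quot_unif {k : Pt D → ℝ} (hk : ContDiff ℝ 1 k) (hs : HasCompactSupport k) {ε : ℝ}
    (hε : 0 < ε) : ∃ L₀ : ℕ, 1 ≤ L₀ ∧ ∀ L : ℕ, L₀ ≤ L → ∀ t w : Pt D, ‖w‖ ≤ 1 →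
    |(L : ℝ) * (k (t + (1 / (L : ℝ)) • w) - k t) - fderiv ℝ k t w| ≤ ε := by
  have huc : UniformContinuous (fderiv ℝ k) :=
    (hs.fderiv ℝ).uniformContinuous_of_continuous (hk.continuous_fderiv one_ne_zero)
  rw [Metric.uniformContinuous_iff] at huc
  obtain ⟨r, hr, H⟩ := huc ε hε
  obtain ⟨n, hn⟩ := exists_nat_gt (1 / r)
  refine ⟨max n 1, le_max_right _ _, fun L hL t w hw => ?_⟩
  have hL1 : 1 ≤ L := (le_max_right _ _).trans hL
  have h0 : (0 : ℝ) < L := by exact_mod_cast hL1
  have hn' : (n : ℝ) ≤ L := by exact_mod_cast (le_max_left _ _).trans hL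
  have hr' : 1 / (L : ℝ) < r := by
    rw [div_lt_iff₀ h0]
    have : 1 / r < L := lt_of_lt_of_le hn hn'
    rw [div_lt_iff₀ hr] at this
    linarith
  have hwn : ‖(1 / (L : ℝ)) • w‖ ≤ 1 / L := by
    rw [norm_smul, Real.norm_eq_abs, abs_of_nonneg (by positivity)]
    exact mul_le_of_le_one_right (by positivity) hw
  have h1 : ‖k (t + (1 / (L : ℝ)) • w) - k t - fderiv ℝ k t ((t + (1 / (L : ℝ)) • w) - t)‖ ≤
      ε * ‖(t + (1 / (L : ℝ)) • w) - t‖ := by
    refine (convex_ball t r).norm_image_sub_le_of_norm_hasFDerivWithin_le'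
      (f' := fderiv ℝ k) (fun x _ => (hk.differentiable one_ne_zero x).hasFDerivAt.hasFDerivWithinAt)
      (fun x hx => ?_) (Metric.mem_ball_self hr) ?_
    · have := H (a := x) (b := t) hx
      rw [dist_eq_norm] at this
      exact this.le
    · rw [mem_ball_iff_norm, add_sub_cancel_left]
      exact hwn.trans_lt hr'
  rw [add_sub_cancel_left, map_smul, smul_eq_mul, Real.norm_eq_abs] at h1
  have h2 : (L : ℝ) * (k (t + (1 / (L : ℝ)) • w) - k t) - fderiv ℝ k t w =
      L * (k (t + (1 / (L : ℝ)) • w) - k t - 1 / L * fderiv ℝ k t w) := by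
    field_simp
  rw [h2, abs_mul, Nat.abs_cast]
  calc (L : ℝ) * |_| ≤ L * (ε * (1 / L)) :=
        mul_le_mul_of_nonneg_left (h1.trans (mul_le_mul_of_nonneg_left hwn hε.le)) h0.le
    _ = ε := by field_simp

/-- convolutions are bounded with bounded support -/
lemma Bs.conv {k h : Pt D → ℝ} (hk : Bs k) (hh : Bs h) : Bs fun p => ∫ t, k t * h (p - t) := by
  have hkm := hk.meas
  have hhm := hh.meas
  have hki : Integrable k volume := hk.integrable
  obtain ⟨M, hM0, hM⟩ := hk.bdd
  obtain ⟨R, hR0, hR⟩ := hk.supp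
  obtain ⟨M', hM0', hM'⟩ := hh.bdd
  obtain ⟨R', hR0', hR'⟩ := hh.supp
  refine ⟨?_, ⟨M' * ∫ t, |k t|, ?_, fun p => ?_⟩, R + R', by positivity, fun p hp => ?_⟩
  · have h1 : StronglyMeasurable (Function.uncurry fun (p t : Pt D) => k t * h (p - t)) := by
      refine Measurable.stronglyMeasurable ?_
      exact (hkm.comp measurable_snd).mul (hhm.comp (measurable_fst.sub measurable_snd))
    exact (h1.integral_prod_right (ν := volume)).measurable
  · exact mul_nonneg hM0' (integral_nonneg fun _ => abs_nonneg _)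
  · rw [← integral_const_mul]
    refine (abs_integral_le_integral_abs).trans ?_
    refine integral_mono_of_nonneg (Eventually.of_forall fun _ => abs_nonneg _)
      (hki.abs.const_mul _) (Eventually.of_forall fun t => ?_)
    simp only
    rw [abs_mul, mul_comm]
    exact mul_le_mul_of_nonneg_right (hM' _) (abs_nonneg _)
  · by_contra hc
    rw [not_le] at hc
    apply hp
    refine integral_eq_zero_of_ae (Eventually.of_forall fun t => ?_)
    simp only [Pi.zero_apply]
    by_cases h1 : k t = 0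
    · rw [h1, zero_mul]
    · by_cases h2 : h (p - t) = 0
      · rw [h2, mul_zero]
      · exfalso
        have h3 := hR _ h1
        have h4 := hR' _ h2
        have h5 : p = (p - t) + t := by abel
        have : ‖p‖ ≤ ‖p - t‖ + ‖t‖ := by
          calc ‖p‖ = ‖(p - t) + t‖ := by rw [← h5]
            _ ≤ _ := norm_add_le _ _
        linarith

/-- Young's inequality for kernels with a sign -/
lemma young_abs {k h : Pt D → ℝ} (hk : Bs k) (hh : Bs h) {S : Set (Pt D)}
    (hS : MeasurableSet S) : ∫ p in S, (∫ t, k t * h (p - t)) ^ 2 ≤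
      (∫ t, |k t|) ^ 2 * ∫ p, h p ^ 2 := by
  have h1 := young (hk := hk.abs) (hk0 := fun t => abs_nonneg _) (hh := hh.abs) (S := S) hS
    (X := ∫ p, h p ^ 2) (fun t _ => by
      have hi : Integrable (fun p : Pt D => h (p - t) ^ 2) volume := by
        have := (hh.sq.trans (-t)).integrable (μ := (volume : Measure (Pt D)))
        simpa only [← sub_eq_add_neg] using this
      have e : ∫ p, h p ^ 2 = ∫ p, h (p - t) ^ 2 :=
        (integral_sub_right_eq_self (μ := (volume : Measure (Pt D))) (fun p => h p ^ 2) t).symm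
      simp only [sq_abs]
      rw [e]
      exact setIntegral_le_integral hi (Eventually.of_forall fun p => by positivity))
  refine le_trans ?_ h1
  refine integral_mono_of_nonneg (Eventually.of_forall fun p => by positivity) ?_
    (Eventually.of_forall fun p => ?_)
  · exact ((hk.abs.conv hh.abs).sq.integrable (μ := (volume : Measure (Pt D)))).integrableOn
  · simp only
    rw [← sq_abs]
    refine pow_le_pow_left₀ (abs_nonneg _) ?_ 2
    refine (abs_integral_le_integral_abs).trans (le_of_eq ?_)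
    congr 1
    funext t
    rw [abs_mul]

/-- a translation can be moved to the kernel -/
lemma conv_shift {k h : Pt D → ℝ} (a p : Pt D) :
    ∫ t, k t * h (p - t + a) = ∫ t, k (t + a) * h (p - t) := by
  rw [← integral_add_right_eq_self (μ := (volume : Measure (Pt D)))
    (fun t => k t * h (p - t + a)) a]
  congr 1
  funext t
  rw [show p - (t + a) + a = p - t by abel]

/-- the derivative of a convolution -/
lemma hasFDerivAt_conv {k h : Pt D → ℝ} (hk : ContDiff ℝ 1 k) (hs : HasCompactSupport k)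
    (hh : LocallyIntegrable h volume) (p : Pt D) :
    ∃ φ : Pt D →L[ℝ] ℝ, HasFDerivAt (fun p => ∫ t, k t * h (p - t)) φ p ∧
      ∀ w, φ w = ∫ t, fderiv ℝ k t w * h (p - t) := by
  have h1 := hs.hasFDerivAt_convolution_left (ContinuousLinearMap.lsmul ℝ ℝ)
    (μ := (volume : Measure (Pt D))) hk hh p
  refine ⟨_, h1, fun w => ?_⟩
  have h2 := (hs.fderiv ℝ).convolutionExists_left
    ((ContinuousLinearMap.lsmul ℝ ℝ : ℝ →L[ℝ] ℝ →L[ℝ] ℝ).precompL (Pt D))
    (hk.continuous_fderiv one_ne_zero) (μ := (volume : Measure (Pt D))) hh p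
  rw [convolution_def, ContinuousLinearMap.integral_apply h2]
  rfl

lemma contDiff_conv {k h : Pt D → ℝ} (hk : ContDiff ℝ 1 k) (hs : HasCompactSupport k)
    (hh : LocallyIntegrable h volume) : ContDiff ℝ 1 (fun p => ∫ t, k t * h (p - t)) :=
  hs.contDiff_convolution_left (n := 1) (ContinuousLinearMap.lsmul ℝ ℝ)
    (μ := (volume : Measure (Pt D))) hk hh

lemma IsKer.bs {k : Pt D → ℝ} {δ : ℝ} (hδ : 0 < δ) (hk : IsKer k δ) : Bs k := by
  obtain ⟨C, hC⟩ := hk.comp.exists_bound_of_continuous hk.smooth.continuous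
  exact ⟨hk.smooth.continuous.measurable, ⟨C, (norm_nonneg _).trans (hC 0), hC⟩, 3 * δ,
    by positivity, fun p hp => (hk.supp p hp).2⟩

/-- the mollified field -/
def mol (k : Pt D → ℝ) (g : Fin D → Pt D → ℝ) : Pt D → Fin D → ℝ :=
  fun p i => ∫ t, k t * g i (p - t)

theorem mol_test {k : Pt D → ℝ} {δ : ℝ} (hδ : 0 < δ) (hk : IsKer k δ) {g : Fin D → Pt D → ℝ}
    (hg : ∀ i, Bs (g i)) (hg0 : ∀ i p, p.2 < 0 → g i p = 0) : IsTest (mol k g) := by
  refine ⟨?_, ?_, ?_⟩
  · rw [contDiff_pi]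
    intro i
    exact contDiff_conv hk.smooth hk.comp (hg i).integrable.locallyIntegrable
  · have h1 : ∀ i, ∃ R : ℝ, 0 ≤ R ∧ ∀ p, mol k g p i ≠ 0 → ‖p‖ ≤ R := fun i =>
      ((hk.bs hδ).conv (hg i)).supp
    choose R hR0 hR using h1
    refine HasCompactSupport.intro (isCompact_closedBall (0 : Pt D) (∑ i, R i)) fun p hp => ?_
    rw [mem_closedBall_zero_iff, not_le] at hp
    funext i
    by_contra h2
    have h3 := hR i p h2
    have h4 : R i ≤ ∑ i, R i := Finset.single_le_sum (fun i _ => hR0 i) (Finset.mem_univ i)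
    linarith
  · intro y
    funext i
    show ∫ t, k t * g i ((y, 0) - t) = 0
    refine integral_eq_zero_of_ae (Eventually.of_forall fun t => ?_)
    simp only [Pi.zero_apply]
    by_cases h1 : k t = 0
    · rw [h1, zero_mul]
    · rw [hg0 i _ (by
        have := (hk.supp t h1).1
        rw [Prod.snd_sub]
        simp only
        linarith), mul_zero]

lemma pd_mol {k : Pt D → ℝ} {δ : ℝ} (hk : IsKer k δ) {g : Fin D → Pt D → ℝ}
    (hg : ∀ i, Bs (g i)) (w : Pt D) (i : Fin D) (p : Pt D) :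
    pd (mol k g) w i p = ∫ t, fderiv ℝ k t w * g i (p - t) := by
  have h1 : ∀ i, ∃ φ : Pt D →L[ℝ] ℝ, HasFDerivAt (fun p => ∫ t, k t * g i (p - t)) φ p ∧
      ∀ w, φ w = ∫ t, fderiv ℝ k t w * g i (p - t) := fun i =>
    hasFDerivAt_conv hk.smooth hk.comp (hg i).integrable.locallyIntegrable p
  choose φ h2 h3 using h1
  have h4 : HasFDerivAt (mol k g) (ContinuousLinearMap.pi φ) p := hasFDerivAt_pi.2 h2
  unfold pd
  rw [h4.fderiv, ContinuousLinearMap.pi_apply, h3]

end

end Pool.Agent.N990.C
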