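import Pool.Agent.N990.C.Cell

/-!
# Young's inequality
-/

set_option autoImplicit false
set_option linter.unusedSectionVars false

open MeasureTheory Set
open scoped Classical

namespace Pool.Agent.N990.C

noncomputable section

variable {D : ℕ}

/-- bounded measurable functions with bounded support -/
structure Bs {E : Type*} [NormedAddCommGroup E] [MeasurableSpace E] (f : E → ℝ) : Prop where
  meas : Measurable f
  bdd : ∃ M : ℝ, 0 ≤ M ∧ ∀ p, |f p| ≤ M
  supp : ∃ R : ℝ, 0 ≤ R ∧ ∀ p, f p ≠ 0 → ‖p‖ ≤ R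

namespace Bs

variable {E : Type*} [NormedAddCommGroup E] [MeasurableSpace E] {f g : E → ℝ}

lemma integrable [ProperSpace E] [OpensMeasurableSpace E] {μ : Measure E}
    [IsFiniteMeasureOnCompacts μ] (hf : Bs f) : Integrable f μ := by
  obtain ⟨M, _, hM⟩ := hf.bdd
  obtain ⟨R, _, hR⟩ := hf.supp
  exact integrable_bdd hf.meas hM hR

lemma mul_bdd (hf : Bs f) (hg : Measurable g) (hgb : ∃ M : ℝ, ∀ p, |g p| ≤ M) :
    Bs fun p => f p * g p := by
  obtain ⟨M, hM0, hM⟩ := hf.bdd
  obtain ⟨R, hR0, hR⟩ := hf.supp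
  obtain ⟨M', hM'⟩ := hgb
  refine ⟨hf.meas.mul hg, ⟨M * |M'|, by positivity, fun p => ?_⟩, R, hR0, fun p hp => hR p ?_⟩
  · rw [abs_mul]
    exact mul_le_mul (hM p) ((hM' p).trans (le_abs_self _)) (abs_nonneg _) hM0
  · intro h; exact hp (by rw [h, zero_mul])

lemma mul (hf : Bs f) (hg : Bs g) : Bs fun p => f p * g p :=
  hf.mul_bdd hg.meas (hg.bdd.imp fun _ h => h.2)

lemma sq (hf : Bs f) : Bs fun p => f p ^ 2 := by
  have := hf.mul hf
  simpa only [← pow_two] using this

lemma add (hf : Bs f) (hg : Bs g) : Bs fun p => f p + g p := by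
  obtain ⟨M, hM0, hM⟩ := hf.bdd
  obtain ⟨R, hR0, hR⟩ := hf.supp
  obtain ⟨M', hM0', hM'⟩ := hg.bdd
  obtain ⟨R', hR0', hR'⟩ := hg.supp
  refine ⟨hf.meas.add hg.meas, ⟨M + M', by positivity, fun p => ?_⟩, max R R',
    le_max_of_le_left hR0, fun p hp => ?_⟩
  · exact (abs_add_le _ _).trans (add_le_add (hM p) (hM' p))
  · by_cases h : f p = 0
    · have : g p ≠ 0 := by intro h'; exact hp (by rw [h, h', add_zero])
      exact (hR' p this).trans (le_max_right _ _)
    · exact (hR p h).trans (le_max_left _ _)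

lemma const_mul (hf : Bs f) (c : ℝ) : Bs fun p => c * f p := by
  obtain ⟨M, hM0, hM⟩ := hf.bdd
  obtain ⟨R, hR0, hR⟩ := hf.supp
  refine ⟨hf.meas.const_mul c, ⟨|c| * M, by positivity, fun p => ?_⟩, R, hR0, fun p hp => hR p ?_⟩
  · rw [abs_mul]
    exact mul_le_mul_of_nonneg_left (hM p) (abs_nonneg _)
  · intro h; exact hp (by rw [h, mul_zero])

lemma zero : Bs fun _ : E => (0 : ℝ) :=
  ⟨measurable_const, ⟨0, le_rfl, fun _ => by simp⟩, 0, le_rfl, fun _ h => absurd rfl h⟩

lemma sum {ι : Type*} (s : Finset ι) {f : ι → E → ℝ} (hf : ∀ i ∈ s, Bs (f i)) :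
    Bs fun p => ∑ i ∈ s, f i p := by
  induction s using Finset.induction_on with
  | empty => simpa using zero
  | insert a s ha ih =>
    have h1 := (hf a (Finset.mem_insert_self _ _)).add (ih fun i hi =>
      hf i (Finset.mem_insert_of_mem hi))
    simpa only [Finset.sum_insert ha] using h1

lemma abs (hf : Bs f) : Bs fun p => |f p| := by
  obtain ⟨M, hM0, hM⟩ := hf.bdd
  obtain ⟨R, hR0, hR⟩ := hf.supp
  refine ⟨hf.meas.abs, ⟨M, hM0, fun p => by rw [abs_abs]; exact hM p⟩, R, hR0, fun p hp => hR p ?_⟩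
  intro h; exact hp (by rw [h, abs_zero])

lemma neg (hf : Bs f) : Bs fun p => -f p := by
  have := hf.const_mul (-1)
  simpa using this

lemma sub (hf : Bs f) (hg : Bs g) : Bs fun p => f p - g p := by
  have := hf.add hg.neg
  simpa only [← sub_eq_add_neg] using this

end Bs

lemma Bs.trans {f : Pt D → ℝ} (hf : Bs f) (v : Pt D) : Bs fun p => f (p + v) := by
  obtain ⟨M, hM0, hM⟩ := hf.bdd
  obtain ⟨R, hR0, hR⟩ := hf.supp
  refine ⟨hf.meas.comp (measurable_id.add_const v), ⟨M, hM0, fun p => hM _⟩, R + ‖v‖,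
    by positivity, fun p hp => ?_⟩
  have h1 := hR _ hp
  have h2 : p = (p + v) - v := by abel
  rw [h2]
  exact (norm_sub_le _ _).trans (by linarith)

/-- the integrand of a convolution -/
lemma Bs.conv2 {k h : Pt D → ℝ} (hk : Bs k) (hh : Bs h) (S : Set (Pt D)) (hS : MeasurableSet S) :
    Bs fun q : Pt D × Pt D => S.indicator (fun _ => (1 : ℝ)) q.1 * (k q.2 * h (q.1 - q.2) ^ 2) := by
  obtain ⟨M, hM0, hM⟩ := hk.bdd
  obtain ⟨R, hR0, hR⟩ := hk.supp
  obtain ⟨M', hM0', hM'⟩ := hh.bdd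
  obtain ⟨R', hR0', hR'⟩ := hh.supp
  refine ⟨?_, ⟨M * M' ^ 2, by positivity, fun q => ?_⟩, R + R', by positivity, fun q hq => ?_⟩
  · refine Measurable.mul ?_ ?_
    · exact (measurable_const.indicator hS).comp measurable_fst
    · exact (hk.meas.comp measurable_snd).mul
        ((hh.meas.comp (measurable_fst.sub measurable_snd)).pow_const 2)
  · rw [abs_mul, abs_mul, abs_pow]
    have h1 : |S.indicator (fun _ => (1 : ℝ)) q.1| ≤ 1 := by
      rw [indicator_apply]; split_ifs <;> simp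
    have h2 : |k q.2| * |h (q.1 - q.2)| ^ 2 ≤ M * M' ^ 2 :=
      mul_le_mul (hM _) (pow_le_pow_left₀ (abs_nonneg _) (hM' _) 2) (by positivity) hM0
    calc _ ≤ 1 * (M * M' ^ 2) := mul_le_mul h1 h2 (by positivity) (by norm_num)
      _ = _ := one_mul _
  · have h1 : k q.2 ≠ 0 := by intro h'; exact hq (by rw [h']; ring)
    have h2 : h (q.1 - q.2) ≠ 0 := by intro h'; exact hq (by rw [h']; ring)
    have h3 := hR _ h1
    have h4 := hR' _ h2
    have h5 : ‖q.1‖ ≤ R + R' := by
      have : q.1 = q.2 + (q.1 - q.2) := by abel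
      rw [this]
      exact (norm_add_le _ _).trans (add_le_add h3 h4)
    rw [Prod.norm_def]
    exact max_le h5 (by linarith)

lemma Bs.conv1 {k h : Pt D → ℝ} (hk : Bs k) (hh : Bs h) (p : Pt D) :
    Bs fun t => k t * h (p - t) := by
  refine hk.mul_bdd (hh.meas.comp (measurable_const.sub measurable_id)) ?_
  obtain ⟨M', hM0', hM'⟩ := hh.bdd
  exact ⟨M', fun t => hM' _⟩

/-- Cauchy-Schwarz with a weight -/
lemma cs_weight {k h : Pt D → ℝ} (hk : Bs k) (hk0 : ∀ t, 0 ≤ k t) (hh : Measurable h)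
    (hb : ∃ M : ℝ, ∀ p, |h p| ≤ M) :
    (∫ t, k t * h t) ^ 2 ≤ (∫ t, k t) * ∫ t, k t * h t ^ 2 := by
  obtain ⟨M, hM⟩ := hb
  have i0 : Integrable k volume := hk.integrable
  have i1 : Integrable (fun t => k t * h t) volume := (hk.mul_bdd hh ⟨M, hM⟩).integrable
  have i2 : Integrable (fun t => k t * h t ^ 2) volume := by
    refine (hk.mul_bdd (hh.pow_const 2) ⟨M ^ 2, fun p => ?_⟩).integrable
    rw [abs_pow]
    exact pow_le_pow_left₀ (abs_nonneg _) (hM p) 2
  obtain ⟨K, hK⟩ : ∃ K, K = ∫ t, k t := ⟨_, rfl⟩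
  obtain ⟨I1, hI1⟩ : ∃ I1, I1 = ∫ t, k t * h t := ⟨_, rfl⟩
  obtain ⟨I2, hI2⟩ : ∃ I2, I2 = ∫ t, k t * h t ^ 2 := ⟨_, rfl⟩
  have hK0 : 0 ≤ K := hK ▸ integral_nonneg hk0
  have key : ∀ m : ℝ, 0 ≤ I2 - 2 * m * I1 + m ^ 2 * K := by
    intro m
    have h1 : 0 ≤ ∫ t, k t * (h t - m) ^ 2 :=
      integral_nonneg fun t => mul_nonneg (hk0 t) (by positivity)
    have h2 : ∫ t, k t * (h t - m) ^ 2 = I2 - 2 * m * I1 + m ^ 2 * K := by
      have e1 : ∫ t, k t * (h t - m) ^ 2 =
          ∫ t, ((k t * h t ^ 2 - 2 * m * (k t * h t)) + m ^ 2 * k t) := by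
        refine integral_congr_ae (Filter.Eventually.of_forall fun t => ?_)
        simp only
        ring
      have i3 : Integrable (fun t => k t * h t ^ 2 - 2 * m * (k t * h t)) volume :=
        i2.sub (i1.const_mul _)
      have i4 : Integrable (fun t => m ^ 2 * k t) volume := i0.const_mul _
      have i5 : Integrable (fun t => 2 * m * (k t * h t)) volume := i1.const_mul _
      have e2 := integral_add i3 i4
      have e3 := integral_sub i2 i5
      rw [e1, e2, e3, integral_const_mul, integral_const_mul, hI1, hI2, hK]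
    linarith
  rw [← hK, ← hI1, ← hI2]
  rcases hK0.eq_or_lt with h0 | h0
  · have h1 : I1 = 0 := by
      by_contra hne
      have h2 := key ((I2 + 1) / (2 * I1))
      rw [← h0] at h2
      have h3 : 2 * ((I2 + 1) / (2 * I1)) * I1 = I2 + 1 := by field_simp
      rw [h3] at h2
      linarith
    rw [h1, ← h0]
    simp
  · have h2 := key (I1 / K)
    have h3 : I2 - 2 * (I1 / K) * I1 + (I1 / K) ^ 2 * K = I2 - I1 ^ 2 / K := by
      field_simp; ring
    rw [h3, sub_nonneg, div_le_iff₀ h0] at h2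
    linarith

/-- **Young's inequality.** -/
theorem young {k h : Pt D → ℝ} (hk : Bs k) (hk0 : ∀ t, 0 ≤ k t) (hh : Bs h) {S : Set (Pt D)}
    (hS : MeasurableSet S) {X : ℝ} (hX : ∀ t, k t ≠ 0 → ∫ p in S, h (p - t) ^ 2 ≤ X) :
    ∫ p in S, (∫ t, k t * h (p - t)) ^ 2 ≤ (∫ t, k t) ^ 2 * X := by
  obtain ⟨M', hM0', hM'⟩ := hh.bdd
  have hi := (Bs.conv2 hk hh S hS).integrable (μ := (volume : Measure (Pt D)).prod volume)
  have h1 : ∀ p, (∫ t, k t * h (p - t)) ^ 2 ≤ (∫ t, k t) * ∫ t, k t * h (p - t) ^ 2 := fun p =>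
    cs_weight hk hk0 (hh.meas.comp (measurable_const.sub measurable_id)) ⟨M', fun t => hM' _⟩
  have hK0 : 0 ≤ ∫ t, k t := integral_nonneg hk0
  have h2 : ∫ p in S, (∫ t, k t * h (p - t)) ^ 2 ≤
      (∫ t, k t) * ∫ p in S, ∫ t, k t * h (p - t) ^ 2 := by
    rw [← integral_const_mul]
    refine integral_mono_of_nonneg (Filter.Eventually.of_forall fun p => by positivity) ?_
      (Filter.Eventually.of_forall h1)
    refine Integrable.const_mul ?_ _
    have h3 := hi.integral_prod_left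
    refine (integrable_indicator_iff hS).1 ?_
    refine h3.congr (Filter.Eventually.of_forall fun p => ?_)
    simp only
    rw [integral_const_mul, indicator_apply, indicator_apply]
    split_ifs <;> simp
  refine h2.trans ?_
  have h4 : ∫ p in S, ∫ t, k t * h (p - t) ^ 2 = ∫ t, k t * ∫ p in S, h (p - t) ^ 2 := by
    have h5 : ∫ p in S, ∫ t, k t * h (p - t) ^ 2 =
        ∫ p, ∫ t, S.indicator (fun _ => (1 : ℝ)) p * (k t * h (p - t) ^ 2) := by
      rw [← integral_indicator hS]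
      refine integral_congr_ae (Filter.Eventually.of_forall fun p => ?_)
      simp only
      rw [integral_const_mul, indicator_apply, indicator_apply]
      split_ifs <;> simp
    rw [h5, integral_integral_swap hi]
    refine integral_congr_ae (Filter.Eventually.of_forall fun t => ?_)
    simp only
    rw [← integral_indicator hS, ← integral_const_mul]
    refine integral_congr_ae (Filter.Eventually.of_forall fun p => ?_)
    simp only
    rw [indicator_apply, indicator_apply]
    split_ifs <;> simp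
  rw [h4, pow_two, mul_assoc]
  refine mul_le_mul_of_nonneg_left ?_ hK0
  rw [← integral_mul_const]
  refine integral_mono_of_nonneg (Filter.Eventually.of_forall fun t => ?_)
    (hk.integrable.mul_const _) (Filter.Eventually.of_forall fun t => ?_)
  · exact mul_nonneg (hk0 t) (integral_nonneg fun p => by positivity)
  · by_cases h5 : k t = 0
    · simp only [h5, zero_mul, le_refl]
    · exact mul_le_mul_of_nonneg_left (hX t h5) (hk0 t)

end

end Pool.Agent.N990.C
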